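import Pool.Agent.H73.WT.Df
/-!
Row Dre (about 110 lines): distribution relation: the sum LS does not change when the level is raised from p^(j+1) to p^(n+1).

PROOF. Write d = p^(j+1), m = p^(n-j), f = d m = p^(n+1). The map (ZMod f)ˣ → (ZMod d)ˣ (ZMod.unitsMap) is surjective, changeLevel χ at a unit a is χ (unitsMap a) (DirichletCharacter.changeLevel_eq_cast_of_dvd or
 changeLevel definition). So LS (changeLevel χ) = Σ_b χ b Σ_{a ↦ b} lg f a (Finset.sum_fiberwise). The fibre over b is {b.val + i d : i < m} (all residues mod f that are b mod d: automatically units since p | d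
 and b is prime to p), and Σ_{i<m} lg f (b.val + i d) = log ∏_{i<m} ‖1 - x ω^i‖ with x = e(b.val/f), ω = e(d/f) = e(1/m) a primitive m-th root of unity (Complex.isPrimitiveRoot_exp), all factors nonzero.
 ∏_{i<m} (1 - x ω^i) = 1 - x^m: from IsPrimitiveRoot.pow_sub_pow_eq_prod_sub_mul (X^m - Y^m = ∏ (X - ζ Y) over nthRootsFinset) with X = 1, Y = x, and nthRootsFinset = image of i ↦ ω^i.
 x^m = e(b.val/d). So the inner sum is lg d b.val.
It is enough (optional) to do one step (n = j+1 → induction) or the general case at once.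
-/

namespace WTA

private theorem Dre_range (m d : ℕ) (g : ℕ → ℂ) : ∑ k ∈ Finset.range (m * d), g k =
    ∑ b ∈ Finset.range d, ∑ i ∈ Finset.range m, g (b + d * i) := by
  rw [← Fin.sum_univ_eq_sum_range, ← finProdFinEquiv.sum_comp, Fintype.sum_prod_type,
    Finset.sum_comm, ← Fin.sum_univ_eq_sum_range (fun b ↦ ∑ i ∈ Finset.range m, g (b + d * i))]
  refine Finset.sum_congr rfl (fun b _ ↦ ?_)
  rw [← Fin.sum_univ_eq_sum_range (fun i ↦ g (b + d * i))]
  rfl

/-- the sum `LS` as a sum over residues -/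
private theorem Dre_LS {N : ℕ} [NeZero N] (χ : DirichletCharacter ℂ N) :
    LS χ = ∑ k ∈ Finset.range N, χ (k : ZMod N) * (lg N k : ℂ) := by
  have h1 : LS χ = ∑ x : ZMod N, χ x * (lg N x.val : ℂ) := by
    unfold LS
    refine Finset.sum_of_injOn (fun a : (ZMod N)ˣ ↦ (a : ZMod N)) ?_ ?_ ?_ ?_
    · intro a _ b _ h
      exact Units.ext h
    · intro a _
      simp
    · intro x _ hx
      have hu : ¬ IsUnit x := by
        intro hx'
        apply hx
        obtain ⟨u, rfl⟩ := hx'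
        exact ⟨u, by simp, rfl⟩
      rw [MulChar.map_nonunit χ hu, zero_mul]
    · intro a _
      rfl
  rw [h1]
  symm
  refine Finset.sum_nbij' (fun k ↦ (k : ZMod N)) (fun x ↦ x.val) ?_ ?_ ?_ ?_ ?_
  · intro k _
    exact Finset.mem_univ _
  · intro x _
    exact Finset.mem_range.mpr (ZMod.val_lt x)
  · intro k hk
    exact ZMod.val_cast_of_lt (Finset.mem_range.mp hk)
  · intro x _
    exact ZMod.natCast_zmod_val x
  · intro k hk
    rw [ZMod.val_cast_of_lt (Finset.mem_range.mp hk)]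

private theorem Dre_image {m : ℕ} (hm : 0 < m) {ω : ℂ} (hω : IsPrimitiveRoot ω m) :
    Polynomial.nthRootsFinset m (1 : ℂ) = (Finset.range m).image (fun i ↦ ω ^ i) := by
  symm
  apply Finset.eq_of_subset_of_card_le
  · intro z hz
    obtain ⟨i, _, rfl⟩ := Finset.mem_image.mp hz
    rw [Polynomial.mem_nthRootsFinset hm, ← pow_mul, mul_comm, pow_mul, hω.pow_eq_one, one_pow]
  · rw [hω.card_nthRootsFinset, Finset.card_image_of_injOn, Finset.card_range]
    intro i hi k hk h
    exact hω.pow_inj (Finset.mem_range.mp (Finset.mem_coe.mp hi))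
      (Finset.mem_range.mp (Finset.mem_coe.mp hk)) h

private theorem Dre_prod {m : ℕ} (hm : 0 < m) {ω : ℂ} (hω : IsPrimitiveRoot ω m) (x : ℂ) :
    ∏ i ∈ Finset.range m, (1 - x * ω ^ i) = 1 - x ^ m := by
  have h := hω.pow_sub_pow_eq_prod_sub_mul 1 x hm
  rw [one_pow, Dre_image hm hω, Finset.prod_image] at h
  · rw [h]
    refine Finset.prod_congr rfl (fun i _ ↦ ?_)
    ring
  · intro i hi k hk h
    exact hω.pow_inj (Finset.mem_range.mp (Finset.mem_coe.mp hi))
      (Finset.mem_range.mp (Finset.mem_coe.mp hk)) h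

private theorem Dre_lg (m d b : ℕ) (hm : 0 < m) (hd : 0 < d) (hb : ¬ d ∣ b) :
    ∑ i ∈ Finset.range m, lg (m * d) (b + d * i) = lg d b := by
  have hmC : (m : ℂ) ≠ 0 := by exact_mod_cast hm.ne'
  have hdC : (d : ℂ) ≠ 0 := by exact_mod_cast hd.ne'
  have hω := Complex.isPrimitiveRoot_exp m hm.ne'
  set ω : ℂ := Complex.exp (2 * Real.pi * Complex.I / m) with hωd
  set x : ℂ := Complex.exp (2 * Real.pi * Complex.I * b / ((m * d : ℕ) : ℂ)) with hx
  have hterm : ∀ i : ℕ, Complex.exp (2 * Real.pi * Complex.I * ((b + d * i : ℕ) : ℂ) /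
      ((m * d : ℕ) : ℂ)) = x * ω ^ i := by
    intro i
    rw [hx, hωd, ← Complex.exp_nat_mul, ← Complex.exp_add]
    congr 1
    push_cast
    field_simp
  have hxm : x ^ m = Complex.exp (2 * Real.pi * Complex.I * b / d) := by
    rw [hx, ← Complex.exp_nat_mul]
    congr 1
    push_cast
    field_simp
  have hne : x ^ m ≠ 1 := by
    rw [hxm]
    intro h
    rw [Complex.exp_eq_one_iff] at h
    obtain ⟨n, hn⟩ := h
    have hpi : (2 * Real.pi * Complex.I : ℂ) ≠ 0 := Complex.two_pi_I_ne_zero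
    have h1 : (b : ℂ) = n * d := by
      have h2 : (2 * Real.pi * Complex.I : ℂ) * b = (2 * Real.pi * Complex.I : ℂ) * (n * d) := by
        field_simp at hn
        linear_combination (2 * Real.pi * Complex.I) * hn
      exact mul_left_cancel₀ hpi h2
    have h3 : (b : ℤ) = n * d := by exact_mod_cast h1
    apply hb
    have : (d : ℤ) ∣ (b : ℤ) := ⟨n, by rw [h3]; ring⟩
    exact_mod_cast this
  have hprod := Dre_prod hm hω x
  unfold lg
  rw [← hxm, ← hprod, norm_prod, Real.log_prod]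
  · refine Finset.sum_congr rfl (fun i _ ↦ ?_)
    rw [hterm i]
  · intro i hi h0
    have h1 : 1 - x * ω ^ i = 0 := norm_eq_zero.mp h0
    have h2 : (1 : ℂ) - x ^ m = 0 := by
      rw [← hprod]
      exact Finset.prod_eq_zero hi h1
    exact hne (sub_eq_zero.mp h2).symm

private theorem Dre_ch {p : ℕ} (hp : p.Prime) {j n : ℕ} (hjn : j ≤ n) [NeZero (p ^ (j + 1))]
    [NeZero (p ^ (n + 1))] (χ : DirichletCharacter ℂ (p ^ (j + 1))) (k : ℕ) :
    (DirichletCharacter.changeLevel (Nat.pow_dvd_pow p (Nat.succ_le_succ hjn)) χ :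
      DirichletCharacter ℂ (p ^ (n + 1))) (k : ZMod (p ^ (n + 1))) =
      χ (k : ZMod (p ^ (j + 1))) := by
  by_cases hk : Nat.Coprime k p
  · have h1 : Nat.Coprime k (p ^ (n + 1)) := Nat.Coprime.pow_right _ hk
    have h2 := DirichletCharacter.changeLevel_eq_cast_of_dvd χ
      (Nat.pow_dvd_pow p (Nat.succ_le_succ hjn)) (ZMod.unitOfCoprime k h1)
    rw [ZMod.coe_unitOfCoprime, ZMod.cast_natCast
      (Nat.pow_dvd_pow p (Nat.succ_le_succ hjn))] at h2
    exact h2
  · have h1 : ¬ IsUnit (k : ZMod (p ^ (n + 1))) := by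
      rw [ZMod.isUnit_iff_coprime]
      intro h
      exact hk (Nat.Coprime.coprime_dvd_right (dvd_pow_self p (Nat.succ_ne_zero n)) h)
    have h2 : ¬ IsUnit (k : ZMod (p ^ (j + 1))) := by
      rw [ZMod.isUnit_iff_coprime]
      intro h
      exact hk (Nat.Coprime.coprime_dvd_right (dvd_pow_self p (Nat.succ_ne_zero j)) h)
    rw [MulChar.map_nonunit _ h1, MulChar.map_nonunit _ h2]

theorem dre {p : ℕ} (hp : p.Prime) {j n : ℕ} (hjn : j ≤ n) [NeZero (p ^ (j + 1))]
    [NeZero (p ^ (n + 1))] (χ : DirichletCharacter ℂ (p ^ (j + 1))) :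
    LS (DirichletCharacter.changeLevel (Nat.pow_dvd_pow p (Nat.succ_le_succ hjn)) χ :
      DirichletCharacter ℂ (p ^ (n + 1))) = LS χ := by
  rw [Dre_LS, Dre_LS]
  have hf : p ^ (n + 1) = p ^ (n - j) * p ^ (j + 1) := by
    rw [← pow_add]
    congr 1
    omega
  have h1 : ∑ k ∈ Finset.range (p ^ (n + 1)),
      (DirichletCharacter.changeLevel (Nat.pow_dvd_pow p (Nat.succ_le_succ hjn)) χ :
      DirichletCharacter ℂ (p ^ (n + 1))) (k : ZMod (p ^ (n + 1))) * (lg (p ^ (n + 1)) k : ℂ) =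
      ∑ k ∈ Finset.range (p ^ (n - j) * p ^ (j + 1)),
        χ (k : ZMod (p ^ (j + 1))) * (lg (p ^ (n - j) * p ^ (j + 1)) k : ℂ) := by
    rw [← hf]
    exact Finset.sum_congr rfl (fun k _ ↦ by rw [Dre_ch hp hjn χ k])
  rw [h1, Dre_range]
  refine Finset.sum_congr rfl (fun b _ ↦ ?_)
  by_cases hb : Nat.Coprime b p
  · have hnd : ¬ p ^ (j + 1) ∣ b := by
      intro h
      have h2 : p ∣ b := (dvd_pow_self p (Nat.succ_ne_zero j)).trans h
      have h3 : p ∣ 1 := by
        have := Nat.dvd_gcd h2 (dvd_refl p)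
        rwa [hb] at this
      exact hp.one_lt.ne' (Nat.dvd_one.mp h3)
    rw [← Dre_lg (p ^ (n - j)) (p ^ (j + 1)) b (pow_pos hp.pos _) (pow_pos hp.pos _) hnd]
    push_cast
    rw [Finset.mul_sum]
    refine Finset.sum_congr rfl (fun i _ ↦ ?_)
    congr 2
    have h0 : ((p : ZMod (p ^ (j + 1))) ^ (j + 1)) = 0 := by
      have := ZMod.natCast_self (p ^ (j + 1))
      push_cast at this
      exact this
    rw [h0]
    ring
  · have h2 : ∀ c : ℕ, ¬ IsUnit ((b + p ^ (j + 1) * c : ℕ) : ZMod (p ^ (j + 1))) := by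
      intro c
      rw [ZMod.isUnit_iff_coprime]
      intro h
      apply hb
      have h3 : Nat.Coprime (b + p ^ (j + 1) * c) p :=
        Nat.Coprime.coprime_dvd_right (dvd_pow_self p (Nat.succ_ne_zero j)) h
      have h4 : p ∣ p ^ (j + 1) * c := (dvd_pow_self p (Nat.succ_ne_zero j)).mul_right c
      obtain ⟨e, he⟩ := h4
      rw [he] at h3
      simpa [Nat.coprime_add_mul_left_left] using h3
    have h5 : χ (b : ZMod (p ^ (j + 1))) = 0 := by
      have := MulChar.map_nonunit χ (h2 0)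
      simpa using this
    rw [h5, zero_mul]
    refine Finset.sum_eq_zero (fun i _ ↦ ?_)
    rw [MulChar.map_nonunit χ (h2 i), zero_mul]

end WTA
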