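import Pool.Agent.H73.WT.Plo
import Pool.Agent.H73.WT.Dre
/-!
Row Lvl (about 60 lines): norm of L(1, chi) for every even nontrivial character mod p^(n+1).

PROOF. χ = changeLevel χ0 with χ0 = χ.primitiveCharacter of level χ.conductor ∣ p^(n+1) (DirichletCharacter.changeLevel_primitiveCharacter or factorsThrough_conductor ...). The conductor is p^i (Nat.dvd_prime_pow) with i ≥ 1
 because χ ≠ 1 (conductor_eq_one_iff). So conductor = p^(j+1) (careful with dependent types: first prove the statement for ψ primitive of level p^(j+1) and χ = changeLevel _ ψ, then obtain j with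
 h : χ.conductor = p^(j+1) and transport by generalising, e.g. obtain ⟨c, hc, ψ, hψ⟩ : ∃ c, ∃ h : c ∣ p^(n+1), ∃ ψ : DirichletCharacter ℂ c, χ = changeLevel h ψ ∧ ψ.IsPrimitive ∧ χ.conductor = c and subst).
 LFunction (changeLevel ψ) 1 = LFunction ψ 1 * ∏_{q ∈ primeFactors (p^(n+1))} (1 - ψ q q^(-1)) (DirichletCharacter.LFunction_changeLevel with ψ ≠ 1 ∨ s ≠ 1), the only prime is p, ψ p = 0 as p is not a unit mod p^(j+1).
 ψ is even since χ is (χ (-1) = ψ (-1)), ψ ≠ 1. Then plo and dre.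
-/

namespace WTA

theorem lvl_aux {p : ℕ} (hp : p.Prime) {j n : ℕ} (hjn : j ≤ n) [NeZero (p ^ (j + 1))]
    [NeZero (p ^ (n + 1))] (hd : p ^ (j + 1) ∣ p ^ (n + 1)) (ψ : DirichletCharacter ℂ (p ^ (j + 1)))
    (hψ : ψ.IsPrimitive) (h1 : ψ ≠ 1) (he : ψ.Even) :
    ‖(DirichletCharacter.changeLevel hd ψ).LFunction 1‖ * Real.sqrt (p ^ (j + 1) : ℕ) =
      ‖LS (DirichletCharacter.changeLevel hd ψ)‖ := by
  have h2 := dre hp hjn ψ
  rw [h2, ← plo hψ h1 he, DirichletCharacter.LFunction_changeLevel hd ψ (Or.inl h1),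
    Nat.primeFactors_prime_pow (Nat.succ_ne_zero n) hp, Finset.prod_singleton]
  have h3 : ψ (p : ZMod (p ^ (j + 1))) = 0 := by
    refine MulChar.map_nonunit _ ?_
    rw [ZMod.isUnit_iff_coprime, Nat.coprime_pow_right_iff (Nat.succ_pos j), Nat.coprime_self]
    exact hp.one_lt.ne'
  rw [h3, zero_mul, sub_zero, mul_one]

theorem lvl {p : ℕ} (hp : p.Prime) {n : ℕ} [NeZero (p ^ (n + 1))]
    (χ : DirichletCharacter ℂ (p ^ (n + 1))) (h1 : χ ≠ 1) (he : χ.Even) :
    ‖χ.LFunction 1‖ * Real.sqrt χ.conductor = ‖LS χ‖ := by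
  obtain ⟨c, hc, ψ, hχ, hψ, hcond⟩ : ∃ c, ∃ h : c ∣ p ^ (n + 1), ∃ ψ : DirichletCharacter ℂ c,
      χ = DirichletCharacter.changeLevel h ψ ∧ ψ.IsPrimitive ∧ χ.conductor = c :=
    ⟨χ.conductor, χ.conductor_dvd_level, χ.primitiveCharacter,
      χ.changeLevel_primitiveCharacter.symm, χ.primitiveCharacter_isPrimitive, rfl⟩
  obtain ⟨i, hi, rfl⟩ := (Nat.dvd_prime_pow hp).1 hc
  rcases i with _ | j
  · exact absurd ((DirichletCharacter.eq_one_iff_conductor_eq_one).2 hcond) h1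
  · haveI : NeZero (p ^ (j + 1)) := ⟨(pow_pos hp.pos _).ne'⟩
    have hψ1 : ψ ≠ 1 := by
      intro h
      rw [h, DirichletCharacter.changeLevel_one] at hχ
      exact h1 hχ
    have hψe : ψ.Even := by
      unfold DirichletCharacter.Even at he ⊢
      have h3 := DirichletCharacter.changeLevel_eq_cast_of_dvd ψ hc (-1 : (ZMod (p ^ (n + 1)))ˣ)
      rw [← hχ] at h3
      rw [Units.val_neg, Units.val_one, he, ZMod.cast_neg hc, ZMod.cast_one hc] at h3
      exact h3.symm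
    rw [hcond, hχ]
    exact lvl_aux hp (by omega) hc ψ hψ hψ1 hψe

end WTA
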