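import Pool.Agent.H73.WT.Ser
import Pool.Agent.H73.WT.Lvl
/-!
Row Fab (about 70 lines): the class number formula in terms of logarithms.

PROOF. fab_res: (s-1) dedekindZeta F s → residue (tendsto_sub_one_mul_dedekindZeta_nhdsGT) and by ser it is (s-1) ζ(s) ∏ L(s,χ) → 1 * ∏ L(1,χ) (riemannZeta_residue_one composed with the real line s ↦ (s:ℂ), 𝓝[>] 1 → 𝓝[≠] 1;
 continuity of LFunction: DirichletCharacter.differentiable_LFunction). tendsto_nhds_unique.
fab: dedekindZeta_residue_def; F totally real: nrRealPlaces F = finrank (IsTotallyReal.finrank), nrComplexPlaces = 0 (IsTotallyReal.nrComplexPlaces_eq_zero), torsionOrder F = 2 (a totally real field contains only ±1: IsTotallyReal or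
 NumberField.Units.torsionOrder_eq_two_of_odd_finrank is not enough; use a real place / an embedding into ℝ: torsion element of norm 1 at a real place is ±1; Mathlib may have IsTotallyReal torsionOrder), so residue = 2^(r-1) h R/√|d|.
 Take norms in fab_res and multiply lvl over χ ∈ evn.
-/

open NumberField Ideal

namespace WTA

theorem fab_torsion (F : Type*) [Field F] [NumberField F] [IsTotallyReal F] :
    Units.torsionOrder F = 2 := by
  classical
  have key : ∀ x : Units.torsion F, (x : (𝓞 F)ˣ) = 1 ∨ (x : (𝓞 F)ˣ) = -1 := by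
    intro x
    by_cases hc : 2 < orderOf (x : (𝓞 F)ˣ)
    · have h1 : IsPrimitiveRoot ((x : (𝓞 F)ˣ) : F) (orderOf (x : (𝓞 F)ˣ)) := by
        have h2 : orderOf (((x : (𝓞 F)ˣ) : 𝓞 F) : F) = orderOf (x : (𝓞 F)ˣ) := by
          rw [show (((x : (𝓞 F)ˣ) : 𝓞 F) : F) = algebraMap (𝓞 F) F ((x : (𝓞 F)ˣ) : 𝓞 F) from rfl]
          rw [← orderOf_units]
          exact orderOf_injective (algebraMap (𝓞 F) F).toMonoidHom
            RingOfIntegers.coe_injective _
        rw [← h2]
        exact IsPrimitiveRoot.orderOf _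
      have h3 := NumberField.InfinitePlace.IsPrimitiveRoot.nrRealPlaces_eq_zero_of_two_lt hc h1
      have h4 := IsTotallyReal.finrank F
      have h5 : 0 < Module.finrank ℚ F := Module.finrank_pos
      omega
    · have hpos : 0 < orderOf (x : (𝓞 F)ˣ) :=
        orderOf_pos_iff.2 ((CommGroup.mem_torsion x.1).1 x.2)
      have h12 : orderOf (x : (𝓞 F)ˣ) = 1 ∨ orderOf (x : (𝓞 F)ˣ) = 2 := by omega
      rcases h12 with h | h
      · exact Or.inl (orderOf_eq_one_iff.1 h)
      · right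
        rw [← orderOf_units, CharP.orderOf_eq_two_iff 0 (by decide)] at h
        exact Units.ext h
  let := Fintype.ofFinite (Units.torsion F)
  rw [Units.torsionOrder, Nat.card_eq_fintype_card]
  refine (Finset.card_eq_two.2 ⟨1, ⟨-1, neg_one_mem_torsion⟩,
    by simp [← Subtype.coe_ne_coe], Finset.ext fun x ↦ ⟨fun _ ↦ ?_, fun _ ↦ Finset.mem_univ _⟩⟩)
  rw [Finset.mem_insert, Finset.mem_singleton, ← Subtype.val_inj, ← Subtype.val_inj]
  exact key x

variable (p n : ℕ) [Fact p.Prime] (F K : Type*) [Field F] [NumberField F] [Field K] [NumberField K]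
  [Algebra F K] [IsCyclotomicExtension {p ^ (n + 1)} ℚ K] [Algebra.IsQuadraticExtension F K]

include K

theorem fab_res (h2 : p ≠ 2) :
    (dedekindZeta_residue F : ℂ) = ∏ χ ∈ evn (p ^ (n + 1)), χ.LFunction 1 := by
  have h1 := tendsto_sub_one_mul_dedekindZeta_nhdsGT F
  have hmap : Filter.Tendsto (fun s : ℝ => (s : ℂ)) (nhdsWithin 1 (Set.Ioi 1)) (nhdsWithin 1 {(1 : ℂ)}ᶜ) := by
    refine tendsto_nhdsWithin_iff.2 ⟨?_, ?_⟩
    · have h3 : Filter.Tendsto (fun s : ℝ => (s : ℂ)) (nhds 1) (nhds ((1 : ℝ) : ℂ)) :=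
        Complex.continuous_ofReal.tendsto 1
      rw [Complex.ofReal_one] at h3
      exact h3.mono_left nhdsWithin_le_nhds
    · filter_upwards [self_mem_nhdsWithin] with s hs
      intro h4
      have h5 : (s : ℂ) = 1 := h4
      have h6 : s = 1 := by exact_mod_cast h5
      have h7 : (1 : ℝ) < s := hs
      linarith
  have hz : Filter.Tendsto (fun s : ℝ => ((s : ℂ) - 1) * riemannZeta (s : ℂ))
      (nhdsWithin 1 (Set.Ioi 1)) (nhds 1) := riemannZeta_residue_one.comp hmap
  have hL : Filter.Tendsto (fun s : ℝ => ∏ χ ∈ evn (p ^ (n + 1)), χ.LFunction (s : ℂ))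
      (nhdsWithin 1 (Set.Ioi 1)) (nhds (∏ χ ∈ evn (p ^ (n + 1)), χ.LFunction 1)) := by
    refine tendsto_finsetProd _ fun χ hχ => ?_
    have h3 := (DirichletCharacter.differentiable_LFunction
      ((mem_evn χ).1 hχ).2).continuous.tendsto (1 : ℂ)
    exact h3.comp (hmap.mono_right nhdsWithin_le_nhds)
  have h2' := hz.mul hL
  rw [one_mul] at h2'
  refine tendsto_nhds_unique h1 (h2'.congr' ?_)
  filter_upwards [self_mem_nhdsWithin] with s hs
  have h7 : (1 : ℝ) < s := hs
  rw [ser p n F K h2 (s := (s : ℂ)) (by rw [Complex.ofReal_re]; exact h7)]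
  ring

theorem fab [IsTotallyReal F] (h2 : p ≠ 2) :
    2 ^ (Module.finrank ℚ F - 1) * (classNumber F : ℝ) * Units.regulator F *
      ∏ χ ∈ evn (p ^ (n + 1)), Real.sqrt χ.conductor =
    Real.sqrt |(discr F : ℝ)| * ∏ χ ∈ evn (p ^ (n + 1)), ‖LS χ‖ := by
  have h1 := fab_res p n F K h2
  have h3 : dedekindZeta_residue F = ∏ χ ∈ evn (p ^ (n + 1)), ‖χ.LFunction 1‖ := by
    have h4 := congrArg norm h1
    rw [norm_prod, Complex.norm_real, Real.norm_of_nonneg (dedekindZeta_residue_pos F).le] at h4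
    exact h4
  have h5 : ∏ χ ∈ evn (p ^ (n + 1)), ‖LS χ‖ =
      (∏ χ ∈ evn (p ^ (n + 1)), ‖χ.LFunction 1‖) *
        ∏ χ ∈ evn (p ^ (n + 1)), Real.sqrt χ.conductor := by
    rw [← Finset.prod_mul_distrib]
    refine Finset.prod_congr rfl fun χ hχ => ?_
    obtain ⟨he, h6⟩ := (mem_evn χ).1 hχ
    exact (lvl Fact.out χ h6 he).symm
  have hd : 0 < Real.sqrt |(discr F : ℝ)| :=
    Real.sqrt_pos_of_pos (abs_pos.mpr (Int.cast_ne_zero.mpr (discr_ne_zero F)))
  have h7 : dedekindZeta_residue F * Real.sqrt |(discr F : ℝ)| =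
      2 ^ (Module.finrank ℚ F - 1) * (classNumber F : ℝ) * Units.regulator F := by
    have h8 : 0 < Module.finrank ℚ F := Module.finrank_pos
    obtain ⟨r, hr⟩ := Nat.exists_eq_succ_of_ne_zero h8.ne'
    rw [dedekindZeta_residue_def, fab_torsion F, IsTotallyReal.nrComplexPlaces_eq_zero,
      ← IsTotallyReal.finrank F, hr]
    simp only [Nat.succ_eq_add_one, Nat.add_sub_cancel, pow_zero, mul_one, Nat.cast_ofNat, pow_succ]
    push_cast
    field_simp
  rw [h5, ← h3, ← h7]
  ring

end WTA
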