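import Pool.Agent.H73.WT.Df
/-!
Row Chr (about 50 lines): orthogonality for even characters.

PROOF. N > 2. For a unit u = (m : ZMod N): Σ_{χ} χ u = φ(N) if u = 1, else 0 (DirichletCharacter.sum_characters_eq, Mathlib/NumberTheory/DirichletCharacter/Orthogonality.lean). Σ_{χ even} χ u = Σ_χ χ u (1 + χ(-1))/2
 (χ(-1) = ±1: DirichletCharacter.even_or_odd) = (1/2)(Σ χ u + Σ χ (-u)). For N > 2 not both u = 1 and -u = 1. The trivial character is even with χ u = 1, so it accounts for the 1 on the left side.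
 Card: evaluate at u = 1: number of even characters is φ(N)/2, so (evn N).card + 1 = φ(N)/2 (φ(N) is even for N > 2: Nat.totient_even).
 chr_p: if m is not a unit mod N all χ m = 0.
-/

namespace WTA

open Classical in
theorem Chr_even_sum {N : ℕ} [NeZero N] (u : ZMod N) :
    ∑ χ ∈ (Finset.univ.filter (fun χ : DirichletCharacter ℂ N => χ.Even)), χ u =
      ((if u = 1 then (N.totient : ℂ) else 0) + (if -u = 1 then (N.totient : ℂ) else 0)) / 2 := by
  have h1 := DirichletCharacter.sum_characters_eq ℂ u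
  have h2 := DirichletCharacter.sum_characters_eq ℂ (-u)
  rw [← h1, ← h2, ← Finset.sum_add_distrib, Finset.sum_div, Finset.sum_filter]
  refine Finset.sum_congr rfl (fun χ _ => ?_)
  have h3 : χ (-u) = χ (-1) * χ u := by rw [← map_mul]; congr 1; ring
  rw [h3]
  rcases χ.even_or_odd with h | h
  · rw [if_pos h]
    have : χ (-1) = 1 := h
    rw [this]
    ring
  · have h4 : ¬ χ.Even := fun h' => DirichletCharacter.not_even_and_odd χ (And.intro h' h)
    rw [if_neg h4]
    have : χ (-1) = -1 := h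
    rw [this]
    ring

open Classical in
theorem Chr_split {N : ℕ} [NeZero N] (u : ZMod N) :
    (1 : DirichletCharacter ℂ N) u + ∑ χ ∈ evn N, χ u =
      ∑ χ ∈ (Finset.univ.filter (fun χ : DirichletCharacter ℂ N => χ.Even)), χ u := by
  have h1 : (1 : DirichletCharacter ℂ N) ∈
      (Finset.univ.filter (fun χ : DirichletCharacter ℂ N => χ.Even)) := by
    rw [Finset.mem_filter]
    refine ⟨Finset.mem_univ _, ?_⟩
    exact MulChar.one_apply (isUnit_one.neg)
  have h2 : evn N = (Finset.univ.filter (fun χ : DirichletCharacter ℂ N => χ.Even)).erase 1 := by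
    ext χ
    rw [mem_evn, Finset.mem_erase, Finset.mem_filter]
    constructor
    · rintro ⟨h, h'⟩
      exact ⟨h', Finset.mem_univ _, h⟩
    · rintro ⟨h', _, h⟩
      exact ⟨h, h'⟩
  rw [h2]
  exact Finset.add_sum_erase _ (fun χ : DirichletCharacter ℂ N => χ u) h1

theorem Chr_ne {N : ℕ} [NeZero N] (hN : 2 < N) : (1 : ZMod N) ≠ -1 := by
  have : Fact (2 < N) := ⟨hN⟩
  exact (ZMod.neg_one_ne_one).symm

theorem chr {N : ℕ} [NeZero N] (hN : 2 < N) (m : ℕ) (hm : m.Coprime N) :
    1 + ∑ χ ∈ evn N, χ (m : ZMod N) =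
      if ((m : ZMod N) = 1 ∨ (m : ZMod N) = -1) then ((N.totient : ℂ) / 2) else 0 := by
  have hu : IsUnit (m : ZMod N) := (ZMod.isUnit_iff_coprime m N).mpr hm
  have h1 : (1 : DirichletCharacter ℂ N) (m : ZMod N) = 1 := MulChar.one_apply hu
  have h2 := Chr_split (m : ZMod N)
  rw [h1, Chr_even_sum] at h2
  rw [h2]
  by_cases ha : (m : ZMod N) = 1
  · have hb : ¬ (-(m : ZMod N) = 1) := by
      rw [ha]
      exact (Chr_ne hN).symm
    rw [if_pos ha, if_neg hb, if_pos (Or.inl ha), add_zero]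
  · by_cases hb : (m : ZMod N) = -1
    · have hc : -(m : ZMod N) = 1 := by rw [hb, neg_neg]
      rw [if_neg ha, if_pos hc, if_pos (Or.inr hb), zero_add]
    · have hc : ¬ (-(m : ZMod N) = 1) := fun h => hb (by rw [← h, neg_neg])
      have hd : ¬ ((m : ZMod N) = 1 ∨ (m : ZMod N) = -1) := by
        rintro (h | h)
        · exact ha h
        · exact hb h
      rw [if_neg ha, if_neg hc, if_neg hd]
      ring

theorem evn_card {N : ℕ} [NeZero N] (hN : 2 < N) : 2 * ((evn N).card + 1) = N.totient := by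
  have h := chr hN 1 (Nat.coprime_one_left N)
  rw [Nat.cast_one, if_pos (Or.inl rfl)] at h
  have h1 : ∑ χ ∈ evn N, χ (1 : ZMod N) = ((evn N).card : ℂ) := by
    rw [Finset.sum_congr rfl (fun χ _ => map_one χ), Finset.sum_const, nsmul_eq_mul, mul_one]
  rw [h1] at h
  have h2 : (2 : ℂ) * (((evn N).card : ℂ) + 1) = (N.totient : ℂ) := by
    rw [add_comm, h]
    ring
  exact_mod_cast h2

theorem chr_p {N : ℕ} [NeZero N] (m : ℕ) (hm : ¬ m.Coprime N) :
    ∑ χ ∈ evn N, χ (m : ZMod N) = 0 := by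
  refine Finset.sum_eq_zero (fun χ _ => ?_)
  exact MulChar.map_nonunit χ (fun h => hm ((ZMod.isUnit_iff_coprime m N).mp h))

end WTA
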