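import Mathlib
/-!
Row Spa (about 100 lines): splitting of primes in F = Q(zeta_f)^+, f = p^(n+1): the fundamental identities.

PROOF. K/ℚ is abelian (IsCyclotomicExtension.isAbelianGalois), so F/ℚ is (IsAbelianGalois.tower_bot ℚ F K). Use with G = Gal(F/ℚ), GAC = Gal(K/ℚ), GBC = Gal(K/F) and a prime P of 𝓞 F over (q):
 inertiaDegIn_mul_inertiaDegIn, ramificationIdxIn_mul_ramificationIdxIn, ncard_primesOver_mul_ncard_primesOver, ncard_primesOver_mul_ramificationIdxIn_mul_inertiaDegIn (Mathlib/NumberTheory/RamificationInertia/Galois.lean;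
 see their use in Mathlib/NumberTheory/NumberField/Cyclotomic/Ideal.lean, inertiaDegIn_ramificationIdxIn_aux).
spa_fin: finrank ℚ K = φ(f) (IsCyclotomicExtension.Rat.finrank) and finrank_mul_finrank.
spa_p: ncard_primesOver_of_prime_pow, inertiaDegIn_eq_of_prime_pow for K.
spa_q: ramificationIdxIn in K is 1 (ramificationIdxIn_eq_of_not_dvd), so it is 1 in F and for K/F; g f = finrank ℚ F; f_F * f_(K/F) = orderOf (q : ZMod f) (inertiaDegIn_eq_of_not_dvd), and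
 g_(K/F) * f_(K/F) = 2.
-/

open NumberField Ideal

namespace WTA

variable (p n : ℕ) [Fact p.Prime] (F K : Type*) [Field F] [NumberField F] [Field K] [NumberField K]
  [Algebra F K] [IsCyclotomicExtension {p ^ (n + 1)} ℚ K] [Algebra.IsQuadraticExtension F K]

include p n K

theorem spa_gal : IsAbelianGalois ℚ F := by
  have : IsAbelianGalois ℚ K := IsCyclotomicExtension.isAbelianGalois {p ^ (n + 1)} ℚ K
  exact IsAbelianGalois.tower_bot ℚ F K

theorem spa_fin : 2 * Module.finrank ℚ F = (p ^ (n + 1)).totient := by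
  have h1 := Module.finrank_mul_finrank ℚ F K
  rw [Algebra.IsQuadraticExtension.finrank_eq_two F K,
    IsCyclotomicExtension.Rat.finrank (p ^ (n + 1)) K] at h1
  rw [← h1, mul_comm]

theorem spa_p : ((span {(p : ℤ)}).primesOver (𝓞 F)).ncard = 1 ∧
    (span {(p : ℤ)}).inertiaDegIn (𝓞 F) = 1 := by
  have hgF : IsAbelianGalois ℚ F := spa_gal p n F K
  have hgK : IsAbelianGalois ℚ K := IsCyclotomicExtension.isAbelianGalois {p ^ (n + 1)} ℚ K
  have hgFK : IsAbelianGalois F K := IsAbelianGalois.tower_top ℚ F K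
  have hpp : (span {(p : ℤ)}).IsPrime := by
    rw [Ideal.span_singleton_prime (by exact_mod_cast (Fact.out : p.Prime).ne_zero)]
    exact Nat.prime_iff_prime_int.1 Fact.out
  obtain ⟨⟨P, _, _⟩⟩ := (span {(p : ℤ)}).nonempty_primesOver (S := 𝓞 F)
  have h1 := ncard_primesOver_mul_ncard_primesOver (p := span {(p : ℤ)}) P Gal(F/ℚ) (𝓞 K) Gal(K/ℚ)
  have h2 := inertiaDegIn_mul_inertiaDegIn (span {(p : ℤ)}) P Gal(F/ℚ) (𝓞 K) Gal(K/ℚ) Gal(K/F)
  rw [IsCyclotomicExtension.Rat.ncard_primesOver_of_prime_pow p n K] at h1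
  rw [IsCyclotomicExtension.Rat.inertiaDegIn_eq_of_prime_pow p n K] at h2
  exact ⟨Nat.eq_one_of_mul_eq_one_right h1, Nat.eq_one_of_mul_eq_one_right h2⟩

theorem spa_q (q : ℕ) (hq : q.Prime) (hqp : q ≠ p) :
    (span {(q : ℤ)}).ramificationIdxIn (𝓞 F) = 1 ∧
    ((span {(q : ℤ)}).primesOver (𝓞 F)).ncard * (span {(q : ℤ)}).inertiaDegIn (𝓞 F) =
      Module.finrank ℚ F ∧
    ∀ (P : Ideal (𝓞 F)) [P.IsPrime] [P.LiesOver (span {(q : ℤ)})],
      (span {(q : ℤ)}).inertiaDegIn (𝓞 F) * P.inertiaDegIn (𝓞 K) =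
        orderOf (q : ZMod (p ^ (n + 1))) ∧
      (P.primesOver (𝓞 K)).ncard * P.inertiaDegIn (𝓞 K) = 2 ∧
      P.ramificationIdxIn (𝓞 K) = 1 := by
  have hgF : IsAbelianGalois ℚ F := spa_gal p n F K
  have hgK : IsAbelianGalois ℚ K := IsCyclotomicExtension.isAbelianGalois {p ^ (n + 1)} ℚ K
  have hgFK : IsAbelianGalois F K := IsAbelianGalois.tower_top ℚ F K
  have hqf : Fact q.Prime := ⟨hq⟩
  have hnd : ¬ q ∣ p ^ (n + 1) := fun h =>
    hqp ((Nat.prime_dvd_prime_iff_eq hq Fact.out).1 (hq.dvd_of_dvd_pow h))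
  have hpp : (span {(q : ℤ)}).IsPrime := by
    rw [Ideal.span_singleton_prime (by exact_mod_cast hq.ne_zero)]
    exact Nat.prime_iff_prime_int.1 hq
  have key : ∀ (P : Ideal (𝓞 F)) [P.IsPrime] [P.LiesOver (span {(q : ℤ)})],
      (span {(q : ℤ)}).ramificationIdxIn (𝓞 F) * P.ramificationIdxIn (𝓞 K) = 1 ∧
      (span {(q : ℤ)}).inertiaDegIn (𝓞 F) * P.inertiaDegIn (𝓞 K) =
        orderOf (q : ZMod (p ^ (n + 1))) := by
    intro P _ _
    have h1 := ramificationIdxIn_mul_ramificationIdxIn (p := span {(q : ℤ)}) P Gal(F/ℚ) (𝓞 K)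
      Gal(K/ℚ) Gal(K/F)
    have h2 := inertiaDegIn_mul_inertiaDegIn (span {(q : ℤ)}) P Gal(F/ℚ) (𝓞 K) Gal(K/ℚ) Gal(K/F)
    rw [IsCyclotomicExtension.Rat.ramificationIdxIn_eq_of_not_dvd q K hnd] at h1
    rw [IsCyclotomicExtension.Rat.inertiaDegIn_eq_of_not_dvd q K hnd] at h2
    exact ⟨h1, h2⟩
  have hr : (span {(q : ℤ)}).ramificationIdxIn (𝓞 F) = 1 := by
    obtain ⟨⟨P, _, _⟩⟩ := (span {(q : ℤ)}).nonempty_primesOver (S := 𝓞 F)
    exact Nat.eq_one_of_mul_eq_one_right (key P).1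
  refine ⟨hr, ?_, fun P _ _ => ⟨(key P).2, ?_, Nat.eq_one_of_mul_eq_one_left (key P).1⟩⟩
  · have h3 := ncard_primesOver_mul_ramificationIdxIn_mul_inertiaDegIn (span {(q : ℤ)}) (𝓞 F)
      Gal(F/ℚ)
    rw [hr, one_mul, IsGalois.card_aut_eq_finrank] at h3
    exact h3
  · have h3 := ncard_primesOver_mul_ramificationIdxIn_mul_inertiaDegIn P (𝓞 K) Gal(K/F)
    rw [Nat.eq_one_of_mul_eq_one_left (key P).1, one_mul, IsGalois.card_aut_eq_finrank,
      Algebra.IsQuadraticExtension.finrank_eq_two F K] at h3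
    exact h3

end WTA
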