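import Mathlib
/-!
Row Spb (about 120 lines): complex conjugation and the decomposition group (independent of Spa).

PROOF. spb_sq: p^(n+1) ∣ (x-1)(x+1) for a representative; p odd cannot divide both x-1 and x+1 (difference 2), so one of them is divisible by p^(n+1) (Nat/Int.Coprime.dvd_of_dvd_mul_left after IsCoprime.pow_left).
spb_conj: a = galEquivZMod (σ.restrictScalars ℚ) satisfies a^2 = 1 since σ^2 = 1 (Nat.card (K ≃ₐ[F] K) = finrank F K = 2; K/F is Galois since K/ℚ is: IsGalois.tower_top_of_isGalois) and a ≠ 1 by injectivity of galEquivZMod and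
 of restrictScalars (AlgEquiv.restrictScalars_injective or ext).
spb: choose 𝔓 ∈ P.primesOver (𝓞 K). card (stabilizer Gal(K/F) 𝔓) = ramificationIdxIn * inertiaDegIn = inertiaDegIn (Ideal.card_stabilizer_eq P; ramification over F is 1: hypothesis hr). The group Gal(K/F) = {1, σ} has order 2, so the
 inertia degree is 2 iff σ • 𝔓 = 𝔓 iff (σ.restrictScalars ℚ) ∈ stabilizer Gal(K/ℚ) 𝔓 (same action on 𝓞 K) iff -1 ∈ zpowers (unitOfCoprime q) (IsCyclotomicExtension.Rat.galEquivZMod_stabilizer, an equality of subgroups,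
 galEquivZMod σ = -1 by spb_conj) iff the order of q is even: if -1 = q^i then the order is even as the order 2 of -1 divides it (orderOf_dvd...; -1 ≠ 1 since f > 2); if the order is 2 t then x = q^t has x^2 = 1, x ≠ 1, so x = -1 by spb_sq.
-/

open NumberField Ideal

namespace WTA

theorem spb_sq {p : ℕ} (hp : p.Prime) (h2 : p ≠ 2) (n : ℕ) (x : ZMod (p ^ (n + 1)))
    (hx : x ^ 2 = 1) : x = 1 ∨ x = -1 := by
  have h1 : (((x.val : ℤ) - 1) * ((x.val : ℤ) + 1) : ℤ) = ((x.val : ℤ))^2 - 1 := by ring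
  have : NeZero (p ^ (n+1)) := ⟨(pow_pos hp.pos _).ne'⟩
  have hxv : ((x.val : ℤ) : ZMod (p ^ (n+1))) = x := by simp
  have hd : ((p ^ (n+1) : ℕ) : ℤ) ∣ ((x.val : ℤ) - 1) * ((x.val : ℤ) + 1) := by
    rw [h1, ← ZMod.intCast_zmod_eq_zero_iff_dvd]
    push_cast
    rw [ZMod.natCast_zmod_val, hx, sub_self]
  have hpi : Prime (p : ℤ) := Nat.prime_iff_prime_int.mp hp
  by_cases hdiv : (p : ℤ) ∣ (x.val : ℤ) - 1
  · have hnd : ¬ (p : ℤ) ∣ (x.val : ℤ) + 1 := by
      intro h
      have h3 : (p : ℤ) ∣ 2 := by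
        have := dvd_sub h hdiv
        ring_nf at this
        simpa using this
      have h4 : p ∣ 2 := by exact_mod_cast h3
      exact h2 ((Nat.prime_dvd_prime_iff_eq hp Nat.prime_two).mp h4)
    left
    have hc : IsCoprime (((p ^ (n+1) : ℕ)) : ℤ) ((x.val : ℤ) + 1) := by
      push_cast
      exact IsCoprime.pow_left ((Prime.coprime_iff_not_dvd hpi).mpr hnd)
    have := hc.dvd_of_dvd_mul_right hd
    rw [← ZMod.intCast_zmod_eq_zero_iff_dvd] at this
    push_cast at this
    rw [ZMod.natCast_zmod_val] at this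
    exact sub_eq_zero.mp this
  · right
    have hc : IsCoprime (((p ^ (n+1) : ℕ)) : ℤ) ((x.val : ℤ) - 1) := by
      push_cast
      exact IsCoprime.pow_left ((Prime.coprime_iff_not_dvd hpi).mpr hdiv)
    have := hc.dvd_of_dvd_mul_left hd
    rw [← ZMod.intCast_zmod_eq_zero_iff_dvd] at this
    push_cast at this
    rw [ZMod.natCast_zmod_val] at this
    exact eq_neg_of_add_eq_zero_left this

variable (p n : ℕ) [Fact p.Prime] (F K : Type*) [Field F] [NumberField F] [Field K] [NumberField K]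
  [Algebra F K] [IsCyclotomicExtension {p ^ (n + 1)} ℚ K] [Algebra.IsQuadraticExtension F K]

theorem spb_conj (h2 : p ≠ 2) (σ : K ≃ₐ[F] K) (hσ : σ ≠ 1) :
    IsCyclotomicExtension.Rat.galEquivZMod (p ^ (n + 1)) K (σ.restrictScalars ℚ) = -1 := by
  have hG : IsGalois ℚ K := IsCyclotomicExtension.isGalois {p ^ (n+1)} ℚ K
  have hGF : IsGalois F K := IsGalois.tower_top_of_isGalois ℚ F K
  have hcard : Nat.card (K ≃ₐ[F] K) = 2 := by
    rw [IsGalois.card_aut_eq_finrank, Algebra.IsQuadraticExtension.finrank_eq_two]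
  have hs2 : σ ^ 2 = 1 := by
    rw [← hcard]; exact pow_card_eq_one'
  set a := IsCyclotomicExtension.Rat.galEquivZMod (p ^ (n + 1)) K (σ.restrictScalars ℚ) with ha
  have hr2 : (σ.restrictScalars ℚ) ^ 2 = 1 := by
    ext x
    have := congrArg (fun τ : K ≃ₐ[F] K => τ x) hs2
    simpa [pow_two] using this
  have ha2 : a ^ 2 = 1 := by rw [ha, ← map_pow, hr2, map_one]
  have ha1 : a ≠ 1 := by
    intro h
    apply hσ
    have : σ.restrictScalars ℚ = 1 := by
      apply (IsCyclotomicExtension.Rat.galEquivZMod (p ^ (n + 1)) K).injective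
      rw [map_one]; exact h
    ext x
    have := congrArg (fun τ : K ≃ₐ[ℚ] K => τ x) this
    simpa using this
  have hv : (a : ZMod (p^(n+1))) ^ 2 = 1 := by
    rw [← Units.val_pow_eq_pow_val, ha2, Units.val_one]
  rcases spb_sq (Fact.out : p.Prime) h2 n _ hv with h | h
  · exact absurd (Units.ext h) ha1
  · exact Units.ext (by rw [h]; simp)

open scoped Pointwise in
theorem spb_stab {F K : Type*} [Field F] [NumberField F] [Field K] [NumberField K]
    [Algebra F K] (σ : K ≃ₐ[F] K) (Q : Ideal (𝓞 K)) :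
    σ ∈ MulAction.stabilizer (K ≃ₐ[F] K) Q ↔
      σ.restrictScalars ℚ ∈ MulAction.stabilizer (K ≃ₐ[ℚ] K) Q := by
  rw [MulAction.mem_stabilizer_iff, MulAction.mem_stabilizer_iff]
  have : σ • Q = (σ.restrictScalars ℚ) • Q := by
    ext x
    rw [Ideal.mem_pointwise_smul_iff_inv_smul_mem, Ideal.mem_pointwise_smul_iff_inv_smul_mem]
    have : σ⁻¹ • x = (σ.restrictScalars ℚ)⁻¹ • x := by
      apply RingOfIntegers.ext
      rfl
    rw [this]
  rw [this]

open scoped Pointwise in
theorem spb (h2 : p ≠ 2) (q : ℕ) (hq : q.Prime) (hqp : q ≠ p) (P : Ideal (𝓞 F)) [P.IsPrime]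
    [P.LiesOver (span {(q : ℤ)})] (hr : P.ramificationIdxIn (𝓞 K) = 1) :
    P.inertiaDegIn (𝓞 K) = 2 ↔ Even (orderOf (q : ZMod (p ^ (n + 1)))) := by
  have hp : p.Prime := Fact.out
  have hG : IsGalois ℚ K := IsCyclotomicExtension.isGalois {p ^ (n+1)} ℚ K
  have hGF : IsGalois F K := IsGalois.tower_top_of_isGalois ℚ F K
  have : Fact q.Prime := ⟨hq⟩
  have hcop : q.Coprime (p ^ (n+1)) :=
    Nat.Coprime.pow_right _ ((Nat.coprime_primes hq Fact.out).mpr hqp)
  have hcard : Nat.card (K ≃ₐ[F] K) = 2 := by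
    rw [IsGalois.card_aut_eq_finrank, Algebra.IsQuadraticExtension.finrank_eq_two]
  obtain ⟨⟨Q, hQ1, hQ2⟩⟩ := P.nonempty_primesOver (S := 𝓞 K)
  have : Q.LiesOver (span {(q : ℤ)}) := LiesOver.trans Q P _
  have hq0 : span {(q : ℤ)} ≠ ⊥ := by
    rw [Ne, Ideal.span_singleton_eq_bot]
    exact_mod_cast hq.ne_zero
  have hP0 : P ≠ ⊥ := ne_bot_of_liesOver_of_ne_bot hq0 P
  have hQ0 : Q ≠ ⊥ := ne_bot_of_liesOver_of_ne_bot hP0 Q
  have : NeZero P := ⟨hP0⟩
  have : P.IsMaximal := Ring.DimensionLEOne.maximalOfPrime hP0 inferInstance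
  have : NeZero Q := ⟨hQ0⟩
  have : Q.IsMaximal := Ring.DimensionLEOne.maximalOfPrime (NeZero.ne Q) inferInstance
  have : Finite (𝓞 F ⧸ P) := Ring.HasFiniteQuotients.finiteQuotient hP0
  have : Finite P.ResidueField := by
    have := P.bijective_algebraMap_quotient_residueField
    exact Finite.of_surjective _ this.surjective
  have hst := Ideal.card_stabilizer_eq (G := (K ≃ₐ[F] K)) P Q
  rw [hr, one_mul] at hst
  have hmap := IsCyclotomicExtension.Rat.galEquivZMod_stabilizer (p ^ (n+1)) K q Q hcop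
  rw [← hst]
  obtain ⟨σ, hσ, huniq⟩ := (Nat.card_eq_two_iff' (1 : K ≃ₐ[F] K)).mp hcard
  have h1 : Nat.card (MulAction.stabilizer (K ≃ₐ[F] K) Q) = 2 ↔
      σ ∈ MulAction.stabilizer (K ≃ₐ[F] K) Q := by
    constructor
    · intro h
      have : MulAction.stabilizer (K ≃ₐ[F] K) Q = ⊤ :=
        Subgroup.eq_top_of_card_eq _ (by rw [h, hcard])
      rw [this]; exact Subgroup.mem_top _
    · intro h
      have : MulAction.stabilizer (K ≃ₐ[F] K) Q = ⊤ := by
        rw [eq_top_iff]
        intro τ _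
        by_cases hτ : τ = 1
        · rw [hτ]; exact one_mem _
        · rw [huniq τ hτ]; exact h
      rw [this, Subgroup.card_top, hcard]
  rw [h1, spb_stab]
  have h3 : σ.restrictScalars ℚ ∈ MulAction.stabilizer (K ≃ₐ[ℚ] K) Q ↔
      (-1 : (ZMod (p ^ (n+1)))ˣ) ∈ Subgroup.zpowers (ZMod.unitOfCoprime q hcop) := by
    rw [← hmap, MulEquiv.mapSubgroup_apply, ← spb_conj p n F K h2 σ hσ]
    constructor
    · intro h
      exact Subgroup.mem_map_of_mem _ h
    · rintro ⟨τ, hτ, hτ2⟩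
      have : τ = σ.restrictScalars ℚ :=
        (IsCyclotomicExtension.Rat.galEquivZMod (p ^ (n + 1)) K).injective hτ2
      rw [← this]; exact hτ
  rw [h3]
  have hord : orderOf (q : ZMod (p ^ (n + 1))) = orderOf (ZMod.unitOfCoprime q hcop) := by
    rw [← orderOf_units, ZMod.coe_unitOfCoprime]
  rw [hord]
  have hgt : Fact (2 < p ^ (n+1)) := by
    refine ⟨?_⟩
    have h3p : 3 ≤ p := by
      have := hp.two_le
      omega
    calc 2 < 3 := by norm_num
      _ ≤ p := h3p
      _ = p ^ 1 := (pow_one p).symm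
      _ ≤ p ^ (n+1) := Nat.pow_le_pow_right hp.pos (by omega)
  have hne : (-1 : (ZMod (p ^ (n+1)))ˣ) ≠ 1 := by
    intro h
    have := congrArg (Units.val) h
    simp only [Units.val_neg, Units.val_one] at this
    exact ZMod.neg_one_ne_one this
  constructor
  · intro h
    have hd := orderOf_dvd_of_mem_zpowers h
    have : orderOf (-1 : (ZMod (p ^ (n+1)))ˣ) = 2 := orderOf_eq_prime (by simp) hne
    rw [this] at hd
    exact even_iff_two_dvd.mpr hd
  · rintro ⟨t, ht⟩
    have hpos : 0 < orderOf (ZMod.unitOfCoprime q hcop) := orderOf_pos _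
    have ht0 : 0 < t := by omega
    have hx2 : ((ZMod.unitOfCoprime q hcop) ^ t) ^ 2 = 1 := by
      rw [← pow_mul, mul_two, ← ht]; exact pow_orderOf_eq_one _
    have hx1 : (ZMod.unitOfCoprime q hcop) ^ t ≠ 1 := by
      intro h
      have := orderOf_dvd_of_pow_eq_one h
      have := Nat.le_of_dvd ht0 this
      omega
    have hv : (((ZMod.unitOfCoprime q hcop) ^ t : (ZMod (p ^ (n+1)))ˣ) : ZMod (p ^ (n+1))) ^ 2 = 1 := by
      rw [← Units.val_pow_eq_pow_val, hx2, Units.val_one]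
    rcases spb_sq hp h2 n _ hv with h | h
    · exact absurd (Units.ext h) hx1
    · have : (ZMod.unitOfCoprime q hcop) ^ t = -1 := Units.ext (by rw [h]; simp)
      rw [← this]
      exact Subgroup.npow_mem_zpowers _ _

end WTA
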