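import Pool.Agent.H73.WT.Lam
import Pool.Agent.H73.WT.Chr
import Pool.Agent.H73.WT.Spa
import Pool.Agent.H73.WT.Spb
/-!
Row Eql (about 110 lines): the two von Mangoldt functions agree.

PROOF. eql_dvd: let f_F = inertiaDegIn of (q) in F, choose P ∈ primesOver (nonempty_primesOver), f' = P.inertiaDegIn (𝓞 K); spa_q: f_F f' = o := orderOf q, g' f' = 2 so f' = 1 or 2; spb: f' = 2 iff o even. q^k = ±1 iff q^(2k) = 1 (spb_sq) iff o ∣ 2k
 (orderOf_dvd_iff_pow_eq_one). If o is even then 2 f_F = o ∣ 2 k iff f_F ∣ k; if o is odd then f' = 1, o = f_F and o ∣ 2k iff o ∣ k.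
eql: if n is not a prime power both sides vanish (lam_npp, ArithmeticFunction.vonMangoldt_eq_zero_iff). n = q^k, k ≥ 1: Λ = log q (vonMangoldt_apply_pow, vonMangoldt_apply_prime). q = p: chr_p gives the bracket 1 (k ≥ 1) and
 lam_pp with spa_p gives log p. q ≠ p: the bracket is (φ(f)/2 or 0) by chr and eql_dvd, lam_pp and spa_q, spa_fin.
-/

open NumberField Ideal

namespace WTA

variable (p n : ℕ) [Fact p.Prime] (F K : Type*) [Field F] [NumberField F] [Field K] [NumberField K]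
  [Algebra F K] [IsCyclotomicExtension {p ^ (n + 1)} ℚ K] [Algebra.IsQuadraticExtension F K]

include K

theorem eql_dvd (h2 : p ≠ 2) (q : ℕ) (hq : q.Prime) (hqp : q ≠ p) (k : ℕ) :
    (span {(q : ℤ)}).inertiaDegIn (𝓞 F) ∣ k ↔
      ((q : ZMod (p ^ (n + 1))) ^ k = 1 ∨ (q : ZMod (p ^ (n + 1))) ^ k = -1) := by
  have hp : p.Prime := Fact.out
  have hqz : Prime (q : ℤ) := Nat.prime_iff_prime_int.mp hq
  have hmax : (span {(q : ℤ)}).IsMaximal :=
    PrincipalIdealRing.isMaximal_of_irreducible hqz.irreducible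
  obtain ⟨P, hP⟩ := (span {(q : ℤ)}).nonempty_primesOver (S := 𝓞 F)
  have hP1 : P.IsPrime := hP.1
  have hP2 : P.LiesOver (span {(q : ℤ)}) := hP.2
  obtain ⟨-, -, hall⟩ := spa_q p n F K q hq hqp
  obtain ⟨h1, h2', h3⟩ := hall P
  have hb := spb p n F K h2 q hq hqp P h3
  have hsq : ((q : ZMod (p ^ (n + 1))) ^ k = 1 ∨ (q : ZMod (p ^ (n + 1))) ^ k = -1) ↔
      orderOf (q : ZMod (p ^ (n + 1))) ∣ 2 * k := by
    rw [orderOf_dvd_iff_pow_eq_one]
    constructor
    · rintro (h | h)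
      · rw [mul_comm, pow_mul, h, one_pow]
      · rw [mul_comm, pow_mul, h, neg_one_sq]
    · intro h
      apply spb_sq hp h2 n
      rw [← pow_mul, mul_comm k 2, h]
  rw [hsq]
  have hf' : P.inertiaDegIn (𝓞 K) ∣ 2 := ⟨_, by rw [← h2']; ring⟩
  rcases (Nat.dvd_prime Nat.prime_two).mp hf' with hf1 | hf2
  · rw [hf1] at h1 hb
    have hodd : Odd (orderOf (q : ZMod (p ^ (n + 1)))) := by
      rw [← Nat.not_even_iff_odd]
      intro he
      have := hb.mpr he
      omega
    rw [← h1, mul_one] at hodd ⊢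
    exact (Nat.Coprime.dvd_mul_left (Nat.coprime_two_right.mpr hodd)).symm
  · rw [hf2] at h1
    rw [← h1, mul_comm]
    exact (Nat.mul_dvd_mul_iff_left (by norm_num : 0 < 2)).symm

theorem eql (h2 : p ≠ 2) (m : ℕ) (hm : m ≠ 0) :
    (H17PIT.LamK F m : ℂ) = (ArithmeticFunction.vonMangoldt m : ℂ) *
      (1 + ∑ χ ∈ evn (p ^ (n + 1)), χ (m : ZMod (p ^ (n + 1)))) := by
  have hp : p.Prime := Fact.out
  have := spa_gal p n F K
  have hN : 2 < p ^ (n + 1) := by
    have h3 : 3 ≤ p := by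
      have := hp.two_le
      omega
    calc 2 < 3 := by norm_num
      _ ≤ p := h3
      _ = p ^ 1 := (pow_one p).symm
      _ ≤ p ^ (n + 1) := Nat.pow_le_pow_right hp.pos (by omega)
  by_cases hpp : IsPrimePow m
  · obtain ⟨q, k, hq, hk, rfl⟩ := (isPrimePow_nat_iff m).mp hpp
    have hL : (ArithmeticFunction.vonMangoldt (q ^ k) : ℝ) = Real.log q := by
      rw [ArithmeticFunction.vonMangoldt_apply_pow hk.ne',
        ArithmeticFunction.vonMangoldt_apply_prime hq]
    rw [hL, lam_pp F q hq k hk]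
    by_cases hqp : q = p
    · subst hqp
      obtain ⟨h1, h2'⟩ := spa_p q n F K
      have hc : ¬ (q ^ k).Coprime (q ^ (n + 1)) := by
        intro hc
        have h3 : q ∣ q ^ k := dvd_pow_self q hk.ne'
        have h4 : q ∣ q ^ (n + 1) := dvd_pow_self q (by omega)
        exact hq.one_lt.ne' (Nat.dvd_one.mp (hc ▸ Nat.dvd_gcd h3 h4))
      rw [chr_p (q ^ k) hc, h1, h2']
      simp
    · have hc : (q ^ k).Coprime (p ^ (n + 1)) :=
        Nat.Coprime.pow _ _ ((Nat.coprime_primes hq hp).mpr hqp)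
      rw [chr hN (q ^ k) hc]
      have hdv := eql_dvd p n F K h2 q hq hqp k
      obtain ⟨-, hgf, -⟩ := spa_q p n F K q hq hqp
      have hfin := spa_fin p n F K
      have hcast : ((q ^ k : ℕ) : ZMod (p ^ (n + 1))) = (q : ZMod (p ^ (n + 1))) ^ k := by
        push_cast
        rfl
      rw [hcast]
      by_cases hd : (span {(q : ℤ)}).inertiaDegIn (𝓞 F) ∣ k
      · rw [if_pos hd, if_pos (hdv.mp hd), hgf, ← hfin]
        push_cast
        ring
      · rw [if_neg hd, if_neg (fun h => hd (hdv.mpr h))]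
        simp
  · rw [lam_npp F m hpp hm, ArithmeticFunction.vonMangoldt_eq_zero_iff.mpr hpp]
    simp

end WTA
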