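import Pool.Agent.H17.PIT.ZI
/-!
Row Idl (about 90 lines): the recursion for the number of ideals (tools/sync.sh Pool/Agent/H17/PIT).

PROOF. aK K n = number of ideals of norm n, LamK K d = Σ over ideals J of norm d of vMI J (H17/PIT/Def.lean). For n ≥ 1, aK K n * log n = Σ_{I : N I = n} log N(I) = Σ_{I : N I = n} Σ_{J ∣ I} vMI J (H17PIT.vMI_sum)
 = Σ over pairs (J, J') with N(J) N(J') = n (I = J J', absNorm multiplicative, map_mul; J determines J' as ideals ≠ 0 are cancellable) of vMI J = Σ_{d e = n} (Σ_{N J = d} vMI J) #{J' : N J' = e}.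
 E.g. Finset.sum_sigma' on both sides and Finset.sum_bij' / sum_nbij between {(I, J) : N I = n, J ∣ I} and {(d, e), J, J'}; with S k := (Ideal.finite_setOfPred_absNorm_eq k).toFinset and (S k).card = aK K k
 (Nat.card_eq_card_toFinset, Set.Nat.card_coe_set_eq, ...). All ideals here are nonzero (norm ≠ 0: Ideal.absNorm_eq_zero_iff).
aK_one: the only ideal of norm 1 is ⊤ (Ideal.absNorm_eq_one_iff).
-/

open NumberField

namespace WTA

variable {K : Type*} [Field K] [NumberField K]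

/-- the ideals of norm `k` -/
noncomputable def idl_S (K : Type*) [Field K] [NumberField K] (k : ℕ) : Finset (Ideal (𝓞 K)) :=
  (Ideal.finite_setOfPred_absNorm_eq (S := 𝓞 K) k).toFinset

theorem idl_mem (k : ℕ) (I : Ideal (𝓞 K)) : I ∈ idl_S K k ↔ Ideal.absNorm I = k := by
  unfold idl_S
  rw [Set.Finite.mem_toFinset, Set.mem_ofPred_eq]

theorem idl_card (k : ℕ) : H17PIT.aK K k = (idl_S K k).card := by
  unfold H17PIT.aK idl_S
  rw [← Set.ncard_eq_toFinset_card _ (Ideal.finite_setOfPred_absNorm_eq (S := 𝓞 K) k)]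
  rfl

theorem idl_ne {n : ℕ} (hn : 1 ≤ n) {I : Ideal (𝓞 K)} (h : Ideal.absNorm I = n) : I ≠ ⊥ := by
  intro h0
  rw [← Ideal.absNorm_eq_zero_iff, h] at h0
  omega

theorem idl (K : Type*) [Field K] [NumberField K] (n : ℕ) (hn : 1 ≤ n) :
    ∑ x ∈ n.divisorsAntidiagonal, H17PIT.LamK K x.1 * (H17PIT.aK K x.2 : ℝ) =
      (H17PIT.aK K n : ℝ) * Real.log n := by
  classical
  -- the pairs of ideals
  obtain ⟨T, hT⟩ : ∃ T : Finset (Ideal (𝓞 K) × Ideal (𝓞 K)), T =
    (n.divisorsAntidiagonal).biUnion (fun x => idl_S K x.1 ×ˢ idl_S K x.2) := ⟨_, rfl⟩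
  have hTm : ∀ q : Ideal (𝓞 K) × Ideal (𝓞 K), q ∈ T ↔
      Ideal.absNorm q.1 * Ideal.absNorm q.2 = n := by
    intro q
    rw [hT, Finset.mem_biUnion]
    constructor
    · rintro ⟨x, hx, hq⟩
      rw [Finset.mem_product, idl_mem, idl_mem] at hq
      rw [hq.1, hq.2]
      exact (Nat.mem_divisorsAntidiagonal.1 hx).1
    · intro h
      refine ⟨(Ideal.absNorm q.1, Ideal.absNorm q.2), ?_, ?_⟩
      · rw [Nat.mem_divisorsAntidiagonal]
        exact ⟨h, by omega⟩
      · rw [Finset.mem_product, idl_mem, idl_mem]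
        exact ⟨rfl, rfl⟩
  have hL : ∑ x ∈ n.divisorsAntidiagonal, H17PIT.LamK K x.1 * (H17PIT.aK K x.2 : ℝ) =
      ∑ q ∈ T, H17PIT.vMI q.1 := by
    rw [hT, Finset.sum_biUnion]
    · refine Finset.sum_congr rfl fun x _ => ?_
      rw [Finset.sum_product, idl_card]
      simp only [Finset.sum_const, nsmul_eq_mul]
      rw [← Finset.mul_sum, mul_comm]
      rfl
    · intro x _ y _ hxy
      rw [Function.onFun, Finset.disjoint_left]
      intro q hq hq'
      rw [Finset.mem_product, idl_mem, idl_mem] at hq hq'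
      exact hxy (Prod.ext (hq.1.symm.trans hq'.1) (hq.2.symm.trans hq'.2))
  have hmaps : ∀ q ∈ T, q.1 * q.2 ∈ idl_S K n := by
    intro q hq
    rw [idl_mem, map_mul]
    exact (hTm q).1 hq
  rw [hL, ← Finset.sum_fiberwise_of_maps_to hmaps, idl_card, ← nsmul_eq_mul, ← Finset.sum_const]
  refine Finset.sum_congr rfl fun I hI => ?_
  rw [idl_mem] at hI
  have hI0 := idl_ne hn hI
  have hfib : ∀ q, q ∈ T.filter (fun q => q.1 * q.2 = I) ↔ q.1 * q.2 = I := by
    intro q
    rw [Finset.mem_filter]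
    refine ⟨fun h => h.2, fun h => ⟨?_, h⟩⟩
    rw [hTm, ← map_mul, h, hI]
  have hinj : Set.InjOn Prod.fst
      ((T.filter (fun q => q.1 * q.2 = I) : Finset (Ideal (𝓞 K) × Ideal (𝓞 K))) :
        Set (Ideal (𝓞 K) × Ideal (𝓞 K))) := by
    intro q hq q' hq' h
    rw [Finset.mem_coe, hfib] at hq hq'
    have h0 : q.1 ≠ 0 := by
      intro h0
      rw [h0, zero_mul] at hq
      exact hI0 hq.symm
    have h2 : q.1 * q.2 = q.1 * q'.2 := by
      rw [hq, h, hq']
    exact Prod.ext h (mul_left_cancel₀ h0 h2)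
  have himg : (T.filter (fun q => q.1 * q.2 = I)).image Prod.fst =
      (H17PIT.divisors_finite I hI0).toFinset := by
    ext J
    rw [Finset.mem_image, Set.Finite.mem_toFinset, Set.mem_ofPred_eq]
    constructor
    · rintro ⟨q, hq, rfl⟩
      rw [hfib] at hq
      exact ⟨q.2, hq.symm⟩
    · rintro ⟨J', hJ'⟩
      exact ⟨(J, J'), (hfib _).2 hJ'.symm, rfl⟩
  rw [← hI, ← H17PIT.vMI_sum I hI0, ← himg, Finset.sum_image hinj]

theorem aK_one (K : Type*) [Field K] [NumberField K] : H17PIT.aK K 1 = 1 := by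
  rw [idl_card, Finset.card_eq_one]
  refine ⟨⊤, ?_⟩
  ext I
  rw [idl_mem, Finset.mem_singleton, Ideal.absNorm_eq_one_iff]

end WTA
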