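import Pool.Agent.H73.WT.Rec
import Pool.Agent.H73.WT.Idl
import Pool.Agent.H73.WT.Eql
/-!
Row Ser (about 110 lines): the factorisation of the Dedekind zeta function of F = Q(zeta_f)^+ for s > 1.

PROOF. Arithmetic functions: z = (ArithmeticFunction.zeta : ArithmeticFunction ℂ), u χ = toArithmeticFunction (fun n => χ n) for χ ∈ evn f, b = z * ∏_{χ ∈ evn f} u χ. With L χ n = χ n * Λ n one has (L χ * u χ) n = u χ n log n
 (DirichletCharacter.convolution_twist_vonMangoldt in Mathlib/NumberTheory/LSeries/Dirichlet.lean, or directly from vonMangoldt_mul_zeta and complete multiplicativity), and Λ * z = log. rec_prod on Option (evn) or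
 Finset.cons / insert (or use it for evn and treat z by hand) gives the recursion for b with Λ_b n = Λ n (1 + Σ χ n) = LamK F n (eql). idl gives the recursion for a n = aK F n with the same Λ; a 1 = b 1 = 1 (aK_one; (∏ u χ) 1 = ∏ 1 = 1,
 e.g. ArithmeticFunction.mul_apply_one by induction). rec_uniq: aK F n = b n for n ≥ 1.
 LSeries b s = LSeries z s * ∏ LSeries (u χ) s for Re s > 1: LSeries_mul / LSeriesSummable_mul by induction over the finset (summability: DirichletCharacter.LSeriesSummable_of_one_lt_re, LSeriesSummable_zeta_iff);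
 LSeries z s = riemannZeta s (LSeries_zeta_eq_riemannZeta); LFunction_eq_LSeries. dedekindZeta F s is LSeries (fun n => Nat.card {I // absNorm I = n}) s = LSeries (aK F) s by definition (value at 0 is irrelevant: LSeries_congr).
-/

open NumberField Ideal

namespace WTA

theorem ser_prod_one {ι : Type*} (s : Finset ι) (u : ι → ArithmeticFunction ℂ)
    (h : ∀ i ∈ s, u i 1 = 1) : (∏ i ∈ s, u i) 1 = 1 := by
  classical
  induction s using Finset.induction_on with
  | empty => simp
  | insert a s ha ih =>
    rw [Finset.prod_insert ha, ArithmeticFunction.mul_apply_one, h a (Finset.mem_insert_self _ _),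
      ih (fun i hi => h i (Finset.mem_insert_of_mem hi)), one_mul]

theorem ser_LS {ι : Type*} (s : Finset ι) (u : ι → ArithmeticFunction ℂ) (z : ℂ)
    (h : ∀ i ∈ s, LSeriesSummable (u i) z) :
    LSeriesSummable (⇑(∏ i ∈ s, u i)) z ∧
      LSeries (⇑(∏ i ∈ s, u i)) z = ∏ i ∈ s, LSeries (u i) z := by
  classical
  induction s using Finset.induction_on with
  | empty =>
    have h1 : LSeriesHasSum (⇑(1 : ArithmeticFunction ℂ)) z 1 := by
      have : (⇑(1 : ArithmeticFunction ℂ)) = LSeries.delta := by
        ext n
        simp [ArithmeticFunction.one_apply, LSeries.delta]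
      rw [this]
      unfold LSeriesHasSum
      have h0 : LSeries.term LSeries.delta z = fun n => if n = 1 then (1 : ℂ) else 0 :=
        funext (LSeries.term_delta z)
      rw [h0]
      exact hasSum_ite_eq 1 1
    simp only [Finset.prod_empty]
    exact ⟨h1.LSeriesSummable, h1.LSeries_eq⟩
  | insert a s ha ih =>
    obtain ⟨h1, h2⟩ := ih (fun i hi => h i (Finset.mem_insert_of_mem hi))
    have h3 := h a (Finset.mem_insert_self _ _)
    rw [Finset.prod_insert ha, Finset.prod_insert ha]
    exact ⟨ArithmeticFunction.LSeriesSummable_mul h3 h1, by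
      rw [ArithmeticFunction.LSeries_mul' h3 h1, h2]⟩

theorem ser_conv {N : ℕ} (χ : DirichletCharacter ℂ N) (n : ℕ) :
    (toArithmeticFunction (fun m : ℕ => χ (m : ZMod N) * (ArithmeticFunction.vonMangoldt m : ℂ)) *
      toArithmeticFunction (fun m : ℕ => χ (m : ZMod N))) n =
      toArithmeticFunction (fun m : ℕ => χ (m : ZMod N)) n * (Real.log n : ℂ) := by
  have h := congrFun (DirichletCharacter.convolution_twist_vonMangoldt χ) n
  have h2 : (toArithmeticFunction (fun m : ℕ => χ (m : ZMod N) *
      (ArithmeticFunction.vonMangoldt m : ℂ)) *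
      toArithmeticFunction (fun m : ℕ => χ (m : ZMod N))) n =
      χ (n : ZMod N) * Complex.log n := h
  rw [h2]
  rcases Nat.eq_zero_or_pos n with rfl | hn
  · simp
  · simp [toArithmeticFunction, hn.ne', Complex.natCast_log]

theorem ser_conv0 (n : ℕ) :
    (toArithmeticFunction (fun m : ℕ => (ArithmeticFunction.vonMangoldt m : ℂ)) *
      toArithmeticFunction (fun _ : ℕ => (1 : ℂ))) n =
      toArithmeticFunction (fun _ : ℕ => (1 : ℂ)) n * (Real.log n : ℂ) := by
  have h := ser_conv (1 : DirichletCharacter ℂ 1) n
  have h1 : ∀ m : ℕ, (1 : DirichletCharacter ℂ 1) (m : ZMod 1) = 1 := fun m =>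
    MulChar.one_apply (isUnit_of_subsingleton _)
  simpa only [h1, one_mul] using h

variable (p n : ℕ) [Fact p.Prime] (F K : Type*) [Field F] [NumberField F] [Field K] [NumberField K]
  [Algebra F K] [IsCyclotomicExtension {p ^ (n + 1)} ℚ K] [Algebra.IsQuadraticExtension F K]

include K

theorem ser (h2 : p ≠ 2) {s : ℂ} (hs : 1 < s.re) :
    dedekindZeta F s = riemannZeta s * ∏ χ ∈ evn (p ^ (n + 1)), χ.LFunction s := by
  classical
  set N := p ^ (n + 1) with hN
  let u : Option (DirichletCharacter ℂ N) → ArithmeticFunction ℂ := fun o => match o with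
    | none => toArithmeticFunction (fun _ : ℕ => (1 : ℂ))
    | some χ => toArithmeticFunction (fun m : ℕ => χ (m : ZMod N))
  let L : Option (DirichletCharacter ℂ N) → ArithmeticFunction ℂ := fun o => match o with
    | none => toArithmeticFunction (fun m : ℕ => (ArithmeticFunction.vonMangoldt m : ℂ))
    | some χ => toArithmeticFunction
        (fun m : ℕ => χ (m : ZMod N) * (ArithmeticFunction.vonMangoldt m : ℂ))
  set S := Finset.insertNone (evn N) with hS
  have hrec : ∀ m : ℕ, ((∑ i ∈ S, L i) * ∏ i ∈ S, u i) m =
      (∏ i ∈ S, u i) m * (Real.log m : ℂ) := by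
    intro m
    refine rec_prod S u L ?_ m
    intro i _ k
    cases i with
    | none => exact ser_conv0 k
    | some χ => exact ser_conv χ k
  have hLam : ∀ m : ℕ, m ≠ 0 → (∑ i ∈ S, L i) m = (H17PIT.LamK F m : ℂ) := by
    intro m hm
    rw [eql p n F K h2 m hm, hS]
    have h1 : (∑ i ∈ Finset.insertNone (evn N), L i) m =
        ∑ i ∈ Finset.insertNone (evn N), L i m := by
      induction (Finset.insertNone (evn N)) using Finset.induction_on with
      | empty => simp
      | insert a s ha ih => rw [Finset.sum_insert ha, Finset.sum_insert ha, ← ih]; rfl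
    rw [h1, Finset.sum_insertNone]
    simp only [L, toArithmeticFunction, ArithmeticFunction.coe_mk, hm, if_false]
    rw [mul_add, mul_one, Finset.mul_sum]
    congr 1
    exact Finset.sum_congr rfl (fun χ _ => mul_comm _ _)
  have hone : (∏ i ∈ S, u i) 1 = 1 := by
    refine ser_prod_one S u ?_
    intro i _
    cases i with
    | none => simp [u, toArithmeticFunction]
    | some χ => simp [u, toArithmeticFunction]
  have huniq : ∀ m : ℕ, 1 ≤ m → (H17PIT.aK F m : ℂ) = (∏ i ∈ S, u i) m := by
    refine rec_uniq (a := fun m => (H17PIT.aK F m : ℂ)) (b := fun m => (∏ i ∈ S, u i) m)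
      (Λ := fun m => (H17PIT.LamK F m : ℂ)) ?_ hone ?_ ?_ ?_
    · simp [aK_one]
    · have := eql p n F K h2 1 one_ne_zero
      simpa using this
    · intro m hm
      have h := idl F m hm
      have h3 := congrArg (fun x : ℝ => (x : ℂ)) h
      push_cast at h3
      simpa using h3
    · intro m hm
      rw [← hrec m, ArithmeticFunction.mul_apply]
      refine Finset.sum_congr rfl (fun x hx => ?_)
      have hx0 : x.1 ≠ 0 := (Nat.ne_zero_of_mem_divisorsAntidiagonal hx).1
      rw [hLam x.1 hx0]
  have hsum : ∀ i ∈ S, LSeriesSummable (u i) s := by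
    intro i _
    cases i with
    | none =>
      have h1 : LSeriesSummable (fun _ : ℕ => (1 : ℂ)) s := LSeriesSummable_one_iff.mpr hs
      refine (LSeriesSummable_congr s ?_).mpr h1
      intro k hk
      simp [u, toArithmeticFunction, hk]
    | some χ =>
      have h1 : LSeriesSummable (fun m : ℕ => χ (m : ZMod N)) s :=
        DirichletCharacter.LSeriesSummable_of_one_lt_re χ hs
      refine (LSeriesSummable_congr s ?_).mpr h1
      intro k hk
      simp [u, toArithmeticFunction, hk]
  have hser := (ser_LS S u s hsum).2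
  have h4 : dedekindZeta F s = LSeries (⇑(∏ i ∈ S, u i)) s := by
    refine LSeries_congr ?_ s
    intro k hk
    exact huniq k (Nat.one_le_iff_ne_zero.mpr hk)
  rw [h4, hser, hS, Finset.prod_insertNone]
  congr 1
  · rw [← LSeries_one_eq_riemannZeta hs]
    refine LSeries_congr ?_ s
    intro k hk
    simp [u, toArithmeticFunction, hk]
  · refine Finset.prod_congr rfl (fun χ _ => ?_)
    rw [DirichletCharacter.LFunction_eq_LSeries χ hs]
    refine LSeries_congr ?_ s
    intro k hk
    simp [u, toArithmeticFunction, hk]

end WTA
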