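import Mathlib

/-! Definitions for the analytic half (no row). -/

namespace WTA

/-- `log |1 - e(a/N)|` -/
noncomputable def lg (N : ℕ) (a : ℕ) : ℝ :=
  Real.log ‖1 - Complex.exp (2 * Real.pi * Complex.I * a / N)‖

/-- the sum over the units -/
noncomputable def LS {N : ℕ} [NeZero N] (χ : DirichletCharacter ℂ N) : ℂ :=
  ∑ a : (ZMod N)ˣ, χ a * (lg N (a : ZMod N).val : ℂ)

open Classical in
/-- the even nontrivial characters -/
noncomputable def evn (N : ℕ) [NeZero N] : Finset (DirichletCharacter ℂ N) :=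
  Finset.univ.filter (fun χ => χ.Even ∧ χ ≠ 1)

theorem mem_evn {N : ℕ} [NeZero N] (χ : DirichletCharacter ℂ N) :
    χ ∈ evn N ↔ χ.Even ∧ χ ≠ 1 := by simp [evn]

end WTA
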