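import Pool.Agent.H73.WT.Df
import Pool.Agent.H69.LB.Gsp
/-!
Row Gsx (about 60 lines): a primitive character as a combination of additive characters.

PROOF. gaussSum_mulShift_of_isPrimitive (Mathlib/NumberTheory/DirichletCharacter/GaussSum.lean) for the primitive character χ⁻¹ (conductor_inv) and e = ZMod.stdAddChar:
 gaussSum χ⁻¹ (e.mulShift m) = χ m * gaussSum χ⁻¹ e, and gaussSum χ⁻¹ (e.mulShift m) = Σ_{a : ZMod N} χ⁻¹ a * e (m a); the non-units contribute 0 (sum over units: e.g. Finset.sum_subtype /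
 Fintype.sum_equiv, or the image of univ under the injective map Units.val), and e (m a) = exp(2 π i a.val / N)^m (ZMod.stdAddChar_apply, ZMod.toCircle_apply ..., a natural number cast:
 ZMod.stdAddChar_coe : stdAddChar (j : ZMod N) = exp(2 π i j / N) for j : ℤ; a = (a.val : ZMod N)).
Second part: norm_gaussSum_sq of Pool/Agent/H69/LB/Gsp.lean for χ⁻¹ (import Pool.Agent.H69.LB.Gsp; tools/sync.sh Pool/Agent/H69/LB).
-/

namespace WTA

private theorem gsx_prim {N : ℕ} [NeZero N] {χ : DirichletCharacter ℂ N} (hχ : χ.IsPrimitive) :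
    χ⁻¹.IsPrimitive := by
  rw [DirichletCharacter.isPrimitive_def, DirichletCharacter.conductor_inv]
  exact hχ

private theorem gsx_exp {N : ℕ} [NeZero N] (m : ℕ) (a : ZMod N) :
    ZMod.stdAddChar ((m : ZMod N) * a) =
      Complex.exp (2 * Real.pi * Complex.I * (a.val : ℂ) / N) ^ m := by
  have h1 : (m : ZMod N) * a = ((((m : ℤ) * (a.val : ℤ) : ℤ)) : ZMod N) := by
    push_cast
    rw [ZMod.natCast_zmod_val]
  rw [h1, ZMod.stdAddChar_coe, ← Complex.exp_nat_mul]
  congr 1
  push_cast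
  ring

theorem gsx {N : ℕ} [NeZero N] {χ : DirichletCharacter ℂ N} (hχ : χ.IsPrimitive) (m : ℕ) :
    gaussSum χ⁻¹ ZMod.stdAddChar * χ m =
      ∑ a : (ZMod N)ˣ, χ⁻¹ a *
        Complex.exp (2 * Real.pi * Complex.I * ((a : ZMod N).val : ℂ) / N) ^ m := by
  classical
  have h1 := gaussSum_mulShift_of_isPrimitive (ZMod.stdAddChar (N := N)) (gsx_prim hχ) (m : ZMod N)
  rw [inv_inv] at h1
  rw [mul_comm, ← h1, gaussSum]
  have h2 : ∀ a : ZMod N, χ⁻¹ a * (AddChar.mulShift (ZMod.stdAddChar (N := N)) (m : ZMod N)) a =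
      χ⁻¹ a * Complex.exp (2 * Real.pi * Complex.I * (a.val : ℂ) / N) ^ m := by
    intro a
    rw [AddChar.mulShift_apply, gsx_exp]
  rw [Finset.sum_congr rfl fun a _ ↦ h2 a]
  symm
  rw [← Finset.sum_subset (Finset.subset_univ
    ((Finset.univ : Finset (ZMod N)ˣ).map ⟨Units.val, Units.val_injective⟩))]
  · rw [Finset.sum_map]
    rfl
  · intro a _ ha
    have hnu : ¬ IsUnit a := by
      intro hu
      apply ha
      rw [Finset.mem_map]
      exact ⟨hu.unit, Finset.mem_univ _, hu.unit_spec⟩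
    rw [MulChar.map_nonunit _ hnu, zero_mul]

theorem gsx_norm {N : ℕ} [NeZero N] {χ : DirichletCharacter ℂ N} (hχ : χ.IsPrimitive) :
    ‖gaussSum χ⁻¹ ZMod.stdAddChar‖ = Real.sqrt N := by
  have h1 := H69LB.norm_gaussSum_sq (gsx_prim hχ)
  rw [← h1, Real.sqrt_sq (norm_nonneg _)]

end WTA
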