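import Pool.Agent.H17.PIT.ZL
/-!
Row Lam (about 90 lines): the von Mangoldt function of a Galois number field at prime powers (tools/sync.sh Pool/Agent/H17/PIT).

PROOF. LamK F (q^k) = Σ_{I : N I = q^k} vMI I. vMI I ≠ 0 only for I = P^m with P a nonzero prime, m ≥ 1 (vMI_eq_zero), then vMI I = log N(P) (vMI_pow). N(P)^m = q^k means that P lies over q
 (q ∈ P as N(P) ∈ P is a power of q; or Ideal.absNorm_mem) and N(P) = q^f with f = inertiaDeg = inertiaDegIn (Ideal.pow_inertiaDeg or absNorm_eq_pow_inertiaDeg; inertiaDegIn_eq_inertiaDeg with Gal(F/ℚ)).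
 So f m = k. If f ∤ k the sum is 0. If k = f m the map P ↦ P^m is a bijection from primesOver (span {q}) (𝓞 F) onto the ideals of norm q^k with vMI ≠ 0 (zi_unique for injectivity), each with vMI = log (q^f) = f log q.
 f > 0 (inertiaDegIn_ne_zero).
-/

open NumberField

namespace WTA

theorem lamX_norm (F : Type*) [Field F] [NumberField F] [IsGalois ℚ F] (q : ℕ)
    (P : Ideal (𝓞 F)) (hP : P ∈ (Ideal.span {(q : ℤ)}).primesOver (𝓞 F)) :
    Ideal.absNorm P = q ^ (Ideal.span {(q : ℤ)}).inertiaDegIn (𝓞 F) := by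
  obtain ⟨h1, h2⟩ := hP
  have h3 := Ideal.inertiaDegIn_eq_inertiaDeg (Ideal.span {(q : ℤ)}) P Gal(F/ℚ)
  have h4 := Ideal.absNorm_pow_inertiaDeg (Ideal.span {(q : ℤ)}) P
  rw [h3, ← h4]
  simp

theorem lamX_mem (F : Type*) [Field F] [NumberField F] (q : ℕ) (hq : q.Prime) (P : Ideal (𝓞 F))
    (hP : P.IsPrime) (hP0 : P ≠ ⊥) {m k : ℕ} (hm : 0 < m) (h : Ideal.absNorm P ^ m = q ^ k) :
    P ∈ (Ideal.span {(q : ℤ)}).primesOver (𝓞 F) := by
  have h1 : Ideal.absNorm P ∣ q ^ k := by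
    rw [← h]
    exact dvd_pow_self _ hm.ne'
  obtain ⟨j, _, hj⟩ := (Nat.dvd_prime_pow hq).mp h1
  have h2 := H17PIT.zi_norm_gt P hP hP0
  have h3 := Ideal.absNorm_mem P
  rw [hj, Nat.cast_pow] at h3
  have h4 : (q : 𝓞 F) ∈ P := hP.mem_of_pow_mem j h3
  have hmax : (Ideal.span {(q : ℤ)}).IsMaximal := by
    haveI := Fact.mk hq
    exact Int.ideal_span_isMaximal_of_prime q
  refine ⟨hP, ⟨?_⟩⟩
  apply hmax.eq_of_le
  · exact (Ideal.IsPrime.under ℤ P).ne_top
  · rw [Ideal.span_singleton_le_iff_mem, Ideal.mem_comap]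
    simpa using h4

theorem lam_pp (F : Type*) [Field F] [NumberField F] [IsGalois ℚ F] (q : ℕ) (hq : q.Prime)
    (k : ℕ) (hk : 0 < k) :
    H17PIT.LamK F (q ^ k) =
      if (Ideal.span {(q : ℤ)}).inertiaDegIn (𝓞 F) ∣ k then
        (((Ideal.span {(q : ℤ)}).primesOver (𝓞 F)).ncard *
          (Ideal.span {(q : ℤ)}).inertiaDegIn (𝓞 F) : ℕ) * Real.log q
      else 0 := by
  classical
  obtain ⟨f, hf⟩ : ∃ f, f = (Ideal.span {(q : ℤ)}).inertiaDegIn (𝓞 F) := ⟨_, rfl⟩
  have hmax : (Ideal.span {(q : ℤ)}).IsMaximal := by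
    haveI := Fact.mk hq
    exact Int.ideal_span_isMaximal_of_prime q
  have hA : ∀ P ∈ (Ideal.span {(q : ℤ)}).primesOver (𝓞 F), Ideal.absNorm P = q ^ f := by
    intro P hP
    rw [hf]
    exact lamX_norm F q P hP
  have hbot : ∀ P ∈ (Ideal.span {(q : ℤ)}).primesOver (𝓞 F), P ≠ ⊥ := by
    intro P hP
    exact Ideal.ne_bot_of_mem_primesOver (by simpa using hq.ne_zero) hP
  rw [← hf]
  have key : ∀ I : Ideal (𝓞 F), Ideal.absNorm I = q ^ k →
      ∀ P : Ideal (𝓞 F), P.IsPrime → P ≠ ⊥ → ∀ m : ℕ, 0 < m → I = P ^ m →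
      P ∈ (Ideal.span {(q : ℤ)}).primesOver (𝓞 F) ∧ f * m = k := by
    intro I hI P hP hP0 m hm hIm
    rw [hIm, map_pow] at hI
    have h1 := lamX_mem F q hq P hP hP0 hm hI
    refine ⟨h1, ?_⟩
    rw [hA P h1, ← pow_mul] at hI
    exact Nat.pow_right_injective hq.two_le hI
  split_ifs with hfk
  · obtain ⟨m, hm⟩ := hfk
    have hm0 : 0 < m := by
      rcases Nat.eq_zero_or_pos m with h | h
      · rw [h, Nat.mul_zero] at hm
        omega
      · exact h
    have hf0 : 0 < f := by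
      rcases Nat.eq_zero_or_pos f with h | h
      · rw [h, Nat.zero_mul] at hm
        omega
      · exact h
    have hfin : ((Ideal.span {(q : ℤ)}).primesOver (𝓞 F)).Finite := by
      exact IsDedekindDomain.primesOver_finite _ _
    unfold H17PIT.LamK
    have hsub : hfin.toFinset.image (fun P => P ^ m) ⊆
        (Ideal.finite_setOfPred_absNorm_eq (S := 𝓞 F) (q ^ k)).toFinset := by
      intro I hI
      obtain ⟨P, hP, rfl⟩ := Finset.mem_image.mp hI
      rw [Set.Finite.mem_toFinset] at hP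
      rw [Set.Finite.mem_toFinset]
      show Ideal.absNorm (P ^ m) = q ^ k
      rw [map_pow, hA P hP, ← pow_mul, ← hm]
    rw [← Finset.sum_subset hsub]
    · rw [Finset.sum_image]
      · have h1 : ∀ P ∈ hfin.toFinset, H17PIT.vMI (P ^ m) = f * Real.log q := by
          intro P hP
          rw [Set.Finite.mem_toFinset] at hP
          rw [H17PIT.vMI_pow P hP.1 (hbot P hP) m hm0, hA P hP, Nat.cast_pow, Real.log_pow]
        rw [Finset.sum_congr rfl h1, Finset.sum_const, nsmul_eq_mul,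
          Set.ncard_eq_toFinset_card _ hfin]
        push_cast
        ring
      · intro P hP Q hQ hPQ
        rw [Finset.mem_coe, Set.Finite.mem_toFinset] at hP hQ
        exact H17PIT.zi_unique P Q hP.1 (hbot P hP) hQ.1 (hbot Q hQ) m m hm0 hm0 hPQ
    · intro I hI hIn
      apply H17PIT.vMI_eq_zero
      rintro ⟨P, ⟨hP, hP0⟩, n, hn, hIn'⟩
      rw [Set.Finite.mem_toFinset] at hI
      have hI' : Ideal.absNorm I = q ^ k := hI
      obtain ⟨h1, h2⟩ := key I hI' P hP hP0 n hn hIn'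
      apply hIn
      rw [Finset.mem_image]
      refine ⟨P, by rw [Set.Finite.mem_toFinset]; exact h1, ?_⟩
      have : n = m := Nat.eq_of_mul_eq_mul_left hf0 (h2.trans hm)
      rw [hIn', this]
  · unfold H17PIT.LamK
    apply Finset.sum_eq_zero
    intro I hI
    apply H17PIT.vMI_eq_zero
    rintro ⟨P, ⟨hP, hP0⟩, n, hn, hIn'⟩
    rw [Set.Finite.mem_toFinset] at hI
    have hI' : Ideal.absNorm I = q ^ k := hI
    obtain ⟨h1, h2⟩ := key I hI' P hP hP0 n hn hIn'
    exact hfk ⟨n, h2.symm⟩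

theorem lam_npp (F : Type*) [Field F] [NumberField F] (n : ℕ) (hn : ¬ IsPrimePow n) (h0 : n ≠ 0) :
    H17PIT.LamK F n = 0 := by
  classical
  unfold H17PIT.LamK
  apply Finset.sum_eq_zero
  intro I hI
  apply H17PIT.vMI_eq_zero
  rintro ⟨P, ⟨hP, hP0⟩, m, hm, hIm⟩
  rw [Set.Finite.mem_toFinset] at hI
  have hI' : Ideal.absNorm I = n := hI
  have hgt := H17PIT.zi_norm_gt P hP hP0
  obtain ⟨p, hp, hpP⟩ := H17PIT.zl_prime P hP _ (by omega) (Ideal.absNorm_mem P)
  have hdvd : P ∣ Ideal.span {(p : 𝓞 F)} := by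
    rw [Ideal.dvd_span_singleton]
    exact hpP
  have hNd : Ideal.absNorm P ∣ p ^ Module.finrank ℚ F := by
    rw [← H17PIT.zl_norm F p]
    exact map_dvd Ideal.absNorm hdvd
  obtain ⟨f, _, hf⟩ := (Nat.dvd_prime_pow hp).mp hNd
  have hf0 : f ≠ 0 := by
    intro h
    rw [h, pow_zero] at hf
    omega
  apply hn
  rw [← hI', hIm, map_pow, hf, ← pow_mul]
  exact hp.isPrimePow.pow (Nat.mul_ne_zero hf0 hm.ne')

end WTA
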