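import Mathlib
/-!
Row Lgu (about 80 lines): the logarithmic series on the unit circle.

PROOF. (i) The series converges: partial sums of z^k are bounded: ‖Σ_{k<n} z^k‖ = ‖(z^n - 1)/(z - 1)‖ ≤ 2/‖z - 1‖ (geom_sum_eq), the sequence 1/k (take 1/(k+1) and shift, or f k = 1 for k = 0)
 is antitone and tends to 0: Antitone.cauchySeq_series_mul_of_tendsto_zero_of_bounded (Mathlib/Analysis/SpecificLimits/Normed.lean, Dirichlet's test), real factor times vector: smul.
 So it has a limit l (complete space: cauchySeq_tendsto_of_complete).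
(ii) Abel: Complex.tendsto_tsum_powerSeries_nhdsWithin_lt gives Σ' z^k/k t^k → l as t → 1- (t real), and for 0 ≤ t < 1 the sum is -log(1 - t z)
 (Complex.hasSum_taylorSeries_neg_log : HasSum (fun n => z^n/n) (-log(1-z)) for ‖z‖ < 1). By continuity of Complex.log at 1 - z (slit plane: Re z < 1 since ‖z‖ = 1 and z ≠ 1,
 so Re (1 - z) > 0) the limit is -log(1 - z). tendsto_nhds_unique.
-/

open Filter Topology

namespace WTA

theorem lgu {z : ℂ} (hz : ‖z‖ = 1) (h1 : z ≠ 1) :
    Tendsto (fun N : ℕ => ∑ k ∈ Finset.range N, z ^ k / (k : ℂ)) atTop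
      (𝓝 (-Complex.log (1 - z))) := by
  have hb : ∀ n : ℕ, ‖∑ k ∈ Finset.range n, z ^ (k + 1)‖ ≤ 2 / ‖z - 1‖ := by
    intro n
    have h2 : ∑ k ∈ Finset.range n, z ^ (k + 1) = z * ((z ^ n - 1) / (z - 1)) := by
      rw [← geom_sum_eq h1, Finset.mul_sum]
      apply Finset.sum_congr rfl
      intro k _
      rw [pow_succ]
      ring
    rw [h2, norm_mul, hz, one_mul, norm_div]
    apply div_le_div_of_nonneg_right _ (norm_nonneg _)
    calc ‖z ^ n - 1‖ ≤ ‖z ^ n‖ + ‖(1 : ℂ)‖ := norm_sub_le _ _
      _ = 2 := by rw [norm_pow, hz]; norm_num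
  have hanti : Antitone (fun k : ℕ => 1 / ((k : ℝ) + 1)) := by
    intro a b hab
    apply one_div_le_one_div_of_le (by positivity)
    have : (a : ℝ) ≤ b := by exact_mod_cast hab
    linarith
  have hlim0 : Tendsto (fun k : ℕ => 1 / ((k : ℝ) + 1)) atTop (𝓝 0) :=
    tendsto_one_div_add_atTop_nhds_zero_nat
  have hC := hanti.cauchySeq_series_mul_of_tendsto_zero_of_bounded hlim0 hb
  obtain ⟨l, hl⟩ := cauchySeq_tendsto_of_complete hC
  have hl' : Tendsto (fun N : ℕ => ∑ k ∈ Finset.range N, z ^ k / (k : ℂ)) atTop (𝓝 l) := by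
    rw [← tendsto_add_atTop_iff_nat 1]
    refine hl.congr (fun n => ?_)
    rw [Finset.sum_range_succ']
    have h0 : z ^ 0 / ((0 : ℕ) : ℂ) = 0 := by simp
    rw [h0, add_zero]
    apply Finset.sum_congr rfl
    intro k _
    rw [Complex.real_smul]
    push_cast
    ring
  have hA := Complex.tendsto_tsum_powerSeries_nhdsWithin_lt hl'
  rw [tendsto_map'_iff] at hA
  have hlog : Tendsto (fun t : ℝ => -Complex.log (1 - (t : ℂ) * z)) (𝓝[<] 1) (𝓝 (-Complex.log (1 - z))) := by
    have hre : 0 < (1 - z).re := by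
      rw [Complex.sub_re, Complex.one_re]
      have h2 : z.re ≤ 1 := by
        rw [← hz]
        exact Complex.re_le_norm z
      rcases lt_or_eq_of_le h2 with h3 | h3
      · linarith
      · exfalso
        apply h1
        have h4 : z.re ^ 2 + z.im ^ 2 = 1 := by
          have := Complex.sq_norm z
          rw [hz, Complex.normSq_apply] at this
          nlinarith
        rw [h3] at h4
        have h5 : z.im = 0 := by
          have : z.im ^ 2 = 0 := by linarith
          exact pow_eq_zero_iff (two_ne_zero) |>.1 this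
        exact Complex.ext (by rw [h3, Complex.one_re]) (by rw [h5, Complex.one_im])
    have hslit : (1 - z) ∈ Complex.slitPlane := Or.inl hre
    have hcont : ContinuousAt (fun t : ℝ => -Complex.log (1 - (t : ℂ) * z)) 1 := by
      have h2 : ContinuousAt (fun t : ℝ => (1 - (t : ℂ) * z)) 1 := by fun_prop
      have h3 : (1 - ((1 : ℝ) : ℂ) * z) ∈ Complex.slitPlane := by
        rw [Complex.ofReal_one, one_mul]
        exact hslit
      exact (h2.clog h3).neg
    have h4 := hcont.tendsto
    rw [Complex.ofReal_one, one_mul] at h4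
    exact h4.mono_left nhdsWithin_le_nhds
  have heq : (fun t : ℝ => -Complex.log (1 - (t : ℂ) * z)) =ᶠ[𝓝[<] 1]
      ((fun w : ℂ => ∑' n : ℕ, z ^ n / (n : ℂ) * w ^ n) ∘ Complex.ofReal) := by
    have h2 : ∀ᶠ t : ℝ in 𝓝[<] 1, 0 < t := by
      apply mem_nhdsWithin_of_mem_nhds
      exact lt_mem_nhds one_pos
    filter_upwards [h2, self_mem_nhdsWithin] with t ht0 ht1
    have ht1' : t < 1 := ht1
    have hn : ‖(t : ℂ) * z‖ < 1 := by
      rw [norm_mul, hz, mul_one, Complex.norm_real, Real.norm_of_nonneg ht0.le]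
      exact ht1'
    have h3 := (Complex.hasSum_taylorSeries_neg_log hn).tsum_eq
    rw [← h3]
    show _ = ∑' n : ℕ, z ^ n / (n : ℂ) * (t : ℂ) ^ n
    apply tsum_congr
    intro n
    rw [mul_pow]
    ring
  have hfin := hlog.congr' heq
  have := tendsto_nhds_unique hA hfin
  rw [← this]
  exact hl'

end WTA
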