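import Mathlib
import Pool.Agent.H17.CharBound
/-!
Row Lon (about 120 lines): L(1, chi) is the sum of the conditionally convergent series.

PROOF. Tail bound uniform in `s ≥ 1`: `|∑_{M ≤ k < K} χ(k) k^(-s)| ≤ 2 N M^(-s) ≤ 2 N / M` by Abel summation (H17/CharBound).
For `s > 1` let `K → ∞`; then let `s → 1+` with `M` fixed.
-/

open Filter Topology

namespace WTA

theorem Lon_tail {N : ℕ} [NeZero N] {χ : DirichletCharacter ℂ N} (hχ : χ ≠ 1) (s : ℝ) (hs : 1 ≤ s)
    (M K : ℕ) (hM : 1 ≤ M) (hMK : M ≤ K) :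
    ‖∑ k ∈ Finset.Ico M K, χ (k : ZMod N) * (((k : ℝ) ^ (-s) : ℝ) : ℂ)‖ ≤ 2 * N / M := by
  rcases Nat.eq_or_lt_of_le hMK with h | hlt
  · rw [h]
    simp
    positivity
  have hM0 : (0 : ℝ) < M := by exact_mod_cast hM
  have hN0 : (0 : ℝ) ≤ N := Nat.cast_nonneg N
  have hS : ∀ L : ℕ, ‖∑ n ∈ Finset.Icc 1 L, (if n < M then (0 : ℂ) else χ (n : ZMod N))‖
      ≤ 2 * N := by
    intro L
    by_cases hL : L < M
    · rw [Finset.sum_eq_zero]
      · simp
      · intro n hn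
        rw [Finset.mem_Icc] at hn
        rw [if_pos (by omega)]
    · push Not at hL
      have h1 : ∑ n ∈ Finset.Icc 1 L, (if n < M then (0 : ℂ) else χ (n : ZMod N))
          = ∑ n ∈ Finset.range (L + 1), χ (n : ZMod N) - ∑ n ∈ Finset.range M, χ (n : ZMod N) := by
        rw [← Finset.sum_Ico_eq_sub _ (by omega : M ≤ L + 1)]
        symm
        rw [← Finset.sum_subset (s₁ := Finset.Ico M (L + 1)) (s₂ := Finset.Icc 1 L)]
        · refine Finset.sum_congr rfl (fun n hn => ?_)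
          rw [Finset.mem_Ico] at hn
          rw [if_neg (by omega)]
        · intro n hn
          rw [Finset.mem_Ico] at hn
          rw [Finset.mem_Icc]
          omega
        · intro n hn hn'
          rw [Finset.mem_Icc] at hn
          rw [Finset.mem_Ico] at hn'
          rw [if_pos (by omega)]
      rw [h1]
      calc _ ≤ _ := norm_sub_le _ _
        _ ≤ (N : ℝ) + N := add_le_add (Pool.Agent.H17.norm_sum_range_char_le hχ _)
            (Pool.Agent.H17.norm_sum_range_char_le hχ _)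
        _ = 2 * N := by ring
  have hkey := Pool.Agent.H17.norm_sum_mul_anti_le
    (a := fun n => if n < M then (0 : ℂ) else χ (n : ZMod N))
    (w := fun n => ((max n M : ℕ) : ℝ) ^ (-s)) hS
    (fun n _ => Real.rpow_nonneg (Nat.cast_nonneg _) _)
    (fun n _ => Real.rpow_le_rpow_of_nonpos
      (by exact_mod_cast (lt_of_lt_of_le hM (le_max_right n M)))
      (by exact_mod_cast (max_le_max_right M (Nat.le_succ n))) (by linarith)) (K - 1) (by omega)
  have h2 : ∑ k ∈ Finset.Ico M K, χ (k : ZMod N) * (((k : ℝ) ^ (-s) : ℝ) : ℂ)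
      = ∑ n ∈ Finset.Icc 1 (K - 1), (if n < M then (0 : ℂ) else χ (n : ZMod N))
        * ((((max n M : ℕ) : ℝ) ^ (-s) : ℝ) : ℂ) := by
    rw [← Finset.sum_subset (s₁ := Finset.Ico M K) (s₂ := Finset.Icc 1 (K - 1))]
    · refine Finset.sum_congr rfl (fun n hn => ?_)
      rw [Finset.mem_Ico] at hn
      rw [if_neg (by omega), max_eq_left hn.1]
    · intro n hn
      rw [Finset.mem_Ico] at hn
      rw [Finset.mem_Icc]
      omega
    · intro n hn hn'
      rw [Finset.mem_Icc] at hn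
      rw [Finset.mem_Ico] at hn'
      rw [if_pos (by omega), zero_mul]
  rw [h2]
  refine hkey.trans ?_
  rw [max_eq_right hM]
  have h3 : (M : ℝ) ^ (-s) ≤ (M : ℝ)⁻¹ := by
    rw [← Real.rpow_neg_one]
    exact Real.rpow_le_rpow_of_exponent_le (by exact_mod_cast hM) (by linarith)
  rw [div_eq_mul_inv]
  exact mul_le_mul_of_nonneg_left h3 (by positivity)

theorem Lon_term {N : ℕ} (χ : DirichletCharacter ℂ N) (s : ℝ) (k : ℕ) (hk : 1 ≤ k) :
    LSeries.term (fun n : ℕ => χ (n : ZMod N)) (s : ℂ) k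
      = χ (k : ZMod N) * (((k : ℝ) ^ (-s) : ℝ) : ℂ) := by
  rw [LSeries.term_of_ne_zero (by omega), Complex.ofReal_cpow (Nat.cast_nonneg k), div_eq_mul_inv,
    Complex.ofReal_neg, Complex.cpow_neg]
  simp

theorem Lon_diff {N : ℕ} (χ : DirichletCharacter ℂ N) (s : ℝ) (M K : ℕ) (hM : 1 ≤ M)
    (hMK : M ≤ K) :
    ∑ k ∈ Finset.range K, LSeries.term (fun n : ℕ => χ (n : ZMod N)) (s : ℂ) k
      - ∑ k ∈ Finset.range M, LSeries.term (fun n : ℕ => χ (n : ZMod N)) (s : ℂ) k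
      = ∑ k ∈ Finset.Ico M K, χ (k : ZMod N) * (((k : ℝ) ^ (-s) : ℝ) : ℂ) := by
  rw [← Finset.sum_Ico_eq_sub _ hMK]
  refine Finset.sum_congr rfl (fun k hk => ?_)
  rw [Finset.mem_Ico] at hk
  exact Lon_term χ s k (by omega)

theorem Lon_bound {N : ℕ} [NeZero N] {χ : DirichletCharacter ℂ N} (hχ : χ ≠ 1) (s : ℝ)
    (hs : 1 < s) (M : ℕ) (hM : 1 ≤ M) :
    ‖χ.LFunction (s : ℂ)
      - ∑ k ∈ Finset.range M, LSeries.term (fun n : ℕ => χ (n : ZMod N)) (s : ℂ) k‖ ≤ 2 * N / M := by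
  have hs' : 1 < (s : ℂ).re := by simpa using hs
  have hsum : LSeriesSummable (fun n : ℕ => χ (n : ZMod N)) (s : ℂ) :=
    DirichletCharacter.LSeriesSummable_of_one_lt_re χ hs'
  have h1 : Tendsto (fun K : ℕ => ∑ k ∈ Finset.range K,
      LSeries.term (fun n : ℕ => χ (n : ZMod N)) (s : ℂ) k) atTop (𝓝 (χ.LFunction (s : ℂ))) := by
    rw [DirichletCharacter.LFunction_eq_LSeries χ hs']
    exact hsum.hasSum.tendsto_sum_nat
  have h2 := (h1.sub_const (∑ k ∈ Finset.range M,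
    LSeries.term (fun n : ℕ => χ (n : ZMod N)) (s : ℂ) k)).norm
  refine le_of_tendsto h2 ?_
  filter_upwards [eventually_ge_atTop M] with K hK
  rw [Lon_diff χ s M K hM hK]
  exact Lon_tail hχ s hs.le M K hM hK

theorem Lon_bound1 {N : ℕ} [NeZero N] {χ : DirichletCharacter ℂ N} (hχ : χ ≠ 1)
    (M : ℕ) (hM : 1 ≤ M) :
    ‖χ.LFunction 1 - ∑ k ∈ Finset.range M, χ (k : ZMod N) / (k : ℂ)‖ ≤ 2 * N / M := by
  have hcast : Tendsto (fun s : ℝ => (s : ℂ)) (𝓝[>] 1) (𝓝 1) := by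
    have h : Tendsto (fun s : ℝ => (s : ℂ)) (𝓝 1) (𝓝 ((1 : ℝ) : ℂ)) :=
      Complex.continuous_ofReal.tendsto 1
    rw [Complex.ofReal_one] at h
    exact h.mono_left nhdsWithin_le_nhds
  have h1 : Tendsto (fun s : ℝ => χ.LFunction (s : ℂ)) (𝓝[>] 1) (𝓝 (χ.LFunction 1)) :=
    ((DirichletCharacter.differentiable_LFunction hχ).continuous.tendsto 1).comp hcast
  have h2 : Tendsto (fun s : ℝ => ∑ k ∈ Finset.range M,
      LSeries.term (fun n : ℕ => χ (n : ZMod N)) (s : ℂ) k) (𝓝[>] 1)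
      (𝓝 (∑ k ∈ Finset.range M, χ (k : ZMod N) / (k : ℂ))) := by
    refine tendsto_finsetSum _ (fun k _ => ?_)
    rcases Nat.eq_zero_or_pos k with hk | hk
    · subst hk
      simp
    · have hk0 : (k : ℂ) ≠ 0 := by exact_mod_cast hk.ne'
      have h3 : Tendsto (fun s : ℝ => (k : ℂ) ^ (s : ℂ)) (𝓝[>] 1) (𝓝 ((k : ℂ) ^ (1 : ℂ))) :=
        ((continuousAt_const_cpow hk0).tendsto).comp hcast
      rw [Complex.cpow_one] at h3
      have h4 : Tendsto (fun s : ℝ => χ (k : ZMod N) / (k : ℂ) ^ (s : ℂ)) (𝓝[>] 1)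
          (𝓝 (χ (k : ZMod N) / (k : ℂ))) := tendsto_const_nhds.div h3 hk0
      refine h4.congr (fun s => ?_)
      rw [LSeries.term_of_ne_zero hk.ne']
  refine le_of_tendsto (h1.sub h2).norm ?_
  filter_upwards [self_mem_nhdsWithin] with s hs
  exact Lon_bound hχ s hs M hM

theorem lon {N : ℕ} [NeZero N] {χ : DirichletCharacter ℂ N} (hχ : χ ≠ 1) :
    Tendsto (fun M : ℕ => ∑ k ∈ Finset.range M, χ k / (k : ℂ)) atTop
      (𝓝 (χ.LFunction 1)) := by
  rw [tendsto_iff_norm_sub_tendsto_zero]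
  have h1 : Tendsto (fun M : ℕ => 2 * (N : ℝ) / M) atTop (𝓝 0) :=
    tendsto_const_nhds.div_atTop tendsto_natCast_atTop_atTop
  refine squeeze_zero' (Eventually.of_forall (fun _ => norm_nonneg _)) ?_ h1
  filter_upwards [eventually_ge_atTop 1] with M hM
  rw [norm_sub_rev]
  exact Lon_bound1 hχ M hM

end WTA
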