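import Pool.Agent.H73.WT.Lgu
import Pool.Agent.H73.WT.Lon
import Pool.Agent.H73.WT.Gsx
/-!
Row Plo (about 90 lines): the norm of L(1, chi) for an even primitive character.

PROOF. N > 1 as χ ≠ 1. e(a/N) ≠ 1 for a unit a (as N > 1, a.val is not 0 mod N; Complex.exp_eq_one_iff). By gsx, τ * Σ_{k<M} χ k/k = Σ_a χ⁻¹(a) Σ_{k<M} e(a/N)^k/k; letting M → ∞ (lon, lgu, finite sum
 of limits): τ * LFunction χ 1 = -Σ_a χ⁻¹(a) log(1 - e(a/N)), τ = gaussSum χ⁻¹ stdAddChar. Substituting a → -a (Equiv.neg on units; χ even so χ⁻¹(-a) = χ⁻¹(a); e(-a/N) = conj e(a/N)) and averaging: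
 = -Σ_a χ⁻¹(a) (1/2)(log(1-w) + log(1 - conj w)) = -Σ_a χ⁻¹(a) log‖1-w‖, since log(conj u) = conj (log u) off the negative axis (Complex.log_conj; arg (1-w) ≠ π as Re(1-w) > 0) and
 u + conj u = 2 Re u, Re log u = log ‖u‖ (Complex.log_re). So ‖τ‖ ‖L(1,χ)‖ = ‖Σ_a χ⁻¹(a) lg N a‖ = ‖conj of it‖ = ‖LS χ‖: χ⁻¹(a) = conj χ(a) (MulChar.star_apply' or
 DirichletCharacter; e.g. from ‖χ a‖ = 1: DirichletCharacter.unit_norm_eq_one), lg is real.
-/

namespace WTA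

theorem Plo_w {N : ℕ} [NeZero N] (a : ZMod N) :
    Complex.exp (2 * Real.pi * Complex.I * (a.val : ℂ) / N) = ZMod.stdAddChar a := by
  have h := ZMod.stdAddChar_coe (N := N) (a.val : ℤ)
  have h2 : (((a.val : ℤ) : ZMod N)) = a := by
    rw [Int.cast_natCast, ZMod.natCast_zmod_val]
  rw [h2] at h
  rw [h, Int.cast_natCast]

theorem Plo_norm {N : ℕ} [NeZero N] (a : ZMod N) : ‖(ZMod.stdAddChar a : ℂ)‖ = 1 := by
  rw [ZMod.stdAddChar_apply]
  exact Circle.norm_coe _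

theorem Plo_N {N : ℕ} [NeZero N] {χ : DirichletCharacter ℂ N} (h1 : χ ≠ 1) : 1 < N := by
  by_contra h
  have hN : N ≠ 0 := NeZero.ne N
  have h2 : N = 1 := by omega
  exact h1 (DirichletCharacter.level_one' χ h2)

theorem Plo_ne {N : ℕ} [NeZero N] (hN : 1 < N) (a : (ZMod N)ˣ) :
    (ZMod.stdAddChar (a : ZMod N) : ℂ) ≠ 1 := by
  intro h
  haveI : Fact (1 < N) := ⟨hN⟩
  have h0 : (ZMod.stdAddChar (0 : ZMod N) : ℂ) = 1 := AddChar.map_zero_eq_one _
  have h2 := ZMod.injective_stdAddChar (h.trans h0.symm)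
  exact a.ne_zero h2

theorem Plo_neg {N : ℕ} [NeZero N] (a : ZMod N) :
    (ZMod.stdAddChar (-a) : ℂ) = (starRingEnd ℂ) (ZMod.stdAddChar a) := by
  rw [AddChar.map_neg_eq_inv, Complex.inv_eq_conj (Plo_norm a)]

theorem Plo_arg {z : ℂ} (hz : ‖z‖ = 1) (h1 : z ≠ 1) : (1 - z).arg ≠ Real.pi := by
  have hre : z.re < 1 := by
    rcases lt_or_eq_of_le (Complex.re_le_norm z) with h | h
    · rw [hz] at h
      exact h
    · exfalso
      apply h1
      have h2 : z.re = 1 := by rw [h, hz]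
      have h3 : z.re ^ 2 + z.im ^ 2 = 1 := by
        have h4 := Complex.sq_norm z
        rw [hz, Complex.normSq_apply] at h4
        nlinarith
      have h5 : z.im = 0 := by
        rw [h2] at h3
        nlinarith
      exact Complex.ext (by simpa using h2) (by simpa using h5)
  intro h
  rw [Complex.arg_eq_pi_iff] at h
  have h6 := h.1
  simp only [Complex.sub_re, Complex.one_re] at h6
  linarith

theorem Plo_half {z : ℂ} (hz : ‖z‖ = 1) (h1 : z ≠ 1) :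
    Complex.log (1 - z) + Complex.log (1 - (starRingEnd ℂ) z) =
      2 * ((Real.log ‖1 - z‖ : ℝ) : ℂ) := by
  have h2 : (1 - (starRingEnd ℂ) z) = (starRingEnd ℂ) (1 - z) := by
    rw [map_sub, map_one]
  rw [h2, Complex.log_conj _ (Plo_arg hz h1), Complex.add_conj, Complex.log_re]
  push_cast
  ring

theorem Plo_sum {N : ℕ} [NeZero N] {χ : DirichletCharacter ℂ N} (h1 : χ ≠ 1) (he : χ.Even) :
    ∑ a : (ZMod N)ˣ, χ⁻¹ a * Complex.log (1 - ZMod.stdAddChar (a : ZMod N)) =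
      (starRingEnd ℂ) (LS χ) := by
  have hN := Plo_N h1
  obtain ⟨F, hF⟩ : ∃ F : (ZMod N)ˣ → ℂ, F = fun a : (ZMod N)ˣ =>
    χ⁻¹ a * Complex.log (1 - ZMod.stdAddChar (a : ZMod N)) := ⟨_, rfl⟩
  have e1 : ∑ a : (ZMod N)ˣ, χ⁻¹ a * Complex.log (1 - ZMod.stdAddChar (a : ZMod N)) =
      ∑ a, F a := by rw [hF]
  have e2 : ∑ a, F a = ∑ a, F (-a) := by
    exact (Equiv.sum_comp (Equiv.neg (ZMod N)ˣ) F).symm
  have e3 : ∀ a, F a + F (-a) = 2 * (χ⁻¹ a * (lg N (a : ZMod N).val : ℂ)) := by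
    intro a
    have h4 : χ⁻¹ ((-a : (ZMod N)ˣ) : ZMod N) = χ⁻¹ (a : ZMod N) := by
      rw [← MulChar.star_apply', ← MulChar.star_apply', Units.val_neg, he.eval_neg]
    have h5 := Plo_half (Plo_norm (a : ZMod N)) (Plo_ne hN a)
    have h6 : lg N (a : ZMod N).val = Real.log ‖1 - (ZMod.stdAddChar (a : ZMod N) : ℂ)‖ := by
      unfold lg
      rw [Plo_w]
    rw [hF]
    simp only
    rw [h4, Units.val_neg, Plo_neg, h6, ← mul_add, h5]
    ring
  have e4 : 2 * ∑ a, F a = 2 * (starRingEnd ℂ) (LS χ) := by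
    have e5 : 2 * ∑ a, F a = ∑ a, (F a + F (-a)) := by
      rw [Finset.sum_add_distrib, ← e2]
      ring
    rw [e5]
    unfold LS
    rw [map_sum, Finset.mul_sum]
    apply Finset.sum_congr rfl
    intro a _
    rw [e3 a, map_mul, Complex.conj_ofReal, ← MulChar.star_apply']
    rfl
  rw [e1]
  exact mul_left_cancel₀ two_ne_zero e4

theorem plo {N : ℕ} [NeZero N] {χ : DirichletCharacter ℂ N} (hχ : χ.IsPrimitive) (h1 : χ ≠ 1)
    (he : χ.Even) : ‖χ.LFunction 1‖ * Real.sqrt N = ‖LS χ‖ := by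
  have hN := Plo_N h1
  have t1 := (lon h1).const_mul (gaussSum χ⁻¹ ZMod.stdAddChar)
  have t2 : Filter.Tendsto (fun M : ℕ => ∑ a : (ZMod N)ˣ, χ⁻¹ a *
      ∑ k ∈ Finset.range M, (ZMod.stdAddChar (a : ZMod N) : ℂ) ^ k / (k : ℂ)) Filter.atTop
      (nhds (∑ a : (ZMod N)ˣ, χ⁻¹ a * (-Complex.log (1 - ZMod.stdAddChar (a : ZMod N))))) := by
    apply tendsto_finsetSum
    intro a _
    exact (lgu (Plo_norm _) (Plo_ne hN a)).const_mul _
  have hfun : (fun M : ℕ => gaussSum χ⁻¹ ZMod.stdAddChar *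
      ∑ k ∈ Finset.range M, χ k / (k : ℂ)) = fun M : ℕ => ∑ a : (ZMod N)ˣ, χ⁻¹ a *
      ∑ k ∈ Finset.range M, (ZMod.stdAddChar (a : ZMod N) : ℂ) ^ k / (k : ℂ) := by
    funext M
    have e1 : ∀ k : ℕ, gaussSum χ⁻¹ ZMod.stdAddChar * (χ k / (k : ℂ)) =
        ∑ a : (ZMod N)ˣ, χ⁻¹ a * ((ZMod.stdAddChar (a : ZMod N) : ℂ) ^ k / (k : ℂ)) := by
      intro k
      rw [← mul_div_assoc, gsx hχ k, Finset.sum_div]
      apply Finset.sum_congr rfl
      intro a _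
      rw [Plo_w]
      ring
    rw [Finset.mul_sum, Finset.sum_congr rfl (fun k _ => e1 k), Finset.sum_comm]
    apply Finset.sum_congr rfl
    intro a _
    rw [Finset.mul_sum]
  rw [hfun] at t1
  have h3 := tendsto_nhds_unique t1 t2
  have h4 : ∑ a : (ZMod N)ˣ, χ⁻¹ a * (-Complex.log (1 - ZMod.stdAddChar (a : ZMod N))) =
      -(starRingEnd ℂ) (LS χ) := by
    rw [← Plo_sum h1 he, ← Finset.sum_neg_distrib]
    apply Finset.sum_congr rfl
    intro a _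
    ring
  rw [h4] at h3
  have h5 := congrArg norm h3
  rw [norm_mul, gsx_norm hχ, norm_neg, RCLike.norm_conj] at h5
  rw [mul_comm]
  exact h5

end WTA
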