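import Mathlib
/-!
Row Rec (about 40 lines): uniqueness for the recursion, and the recursion for a product.

PROOF. rec_uniq: strong induction on n. n = 1: given. n > 1: in Σ_{(d,e), de = n} Λ d a e the term d = 1 vanishes (Λ 1 = 0), so only e < n occur, where a e = b e; hence a n log n = b n log n and log n ≠ 0.
rec_prod: induction on s; D f n := f n * log n satisfies D(f * g) = D f * g + f * D g (ArithmeticFunction.mul_apply, log(de) = log d + log e for d e = n ≠ 0, Finset.sum_congr); at n = 0 both sides are 0.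
-/

namespace WTA

theorem rec_uniq {a b Λ : ℕ → ℂ} (ha : a 1 = 1) (hb : b 1 = 1) (hL : Λ 1 = 0)
    (h1 : ∀ n : ℕ, 1 ≤ n → ∑ x ∈ n.divisorsAntidiagonal, Λ x.1 * a x.2 = a n * (Real.log n : ℂ))
    (h2 : ∀ n : ℕ, 1 ≤ n → ∑ x ∈ n.divisorsAntidiagonal, Λ x.1 * b x.2 = b n * (Real.log n : ℂ)) :
    ∀ n : ℕ, 1 ≤ n → a n = b n := by
  intro n
  induction n using Nat.strong_induction_on with
  | _ n ih =>
    intro hn
    rcases Nat.eq_or_lt_of_le hn with h | h
    · rw [← h, ha, hb]
    · have hlog : (Real.log n : ℂ) ≠ 0 := by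
        have : Real.log n ≠ 0 := by
          have h1n : (1 : ℝ) < n := by exact_mod_cast h
          exact (Real.log_pos h1n).ne'
        exact_mod_cast this
      have hs : ∑ x ∈ n.divisorsAntidiagonal, Λ x.1 * a x.2
          = ∑ x ∈ n.divisorsAntidiagonal, Λ x.1 * b x.2 := by
        refine Finset.sum_congr rfl fun x hx => ?_
        obtain ⟨hx1, hx2⟩ := Nat.mem_divisorsAntidiagonal.1 hx
        by_cases h1x : x.1 = 1
        · rw [h1x, hL]; ring
        · have hx10 : x.1 ≠ 0 := fun h0 => hx2 (by rw [← hx1, h0, zero_mul])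
          have hx20 : x.2 ≠ 0 := fun h0 => hx2 (by rw [← hx1, h0, mul_zero])
          have hlt : x.2 < n := by
            rw [← hx1]
            have : 2 ≤ x.1 := by omega
            have hp : 1 ≤ x.2 := by omega
            nlinarith
          rw [ih x.2 hlt (by omega)]
      rw [h1 n hn, h2 n hn] at hs
      exact mul_right_cancel₀ hlog hs

theorem rec_prod {ι : Type*} (s : Finset ι) (u L : ι → ArithmeticFunction ℂ)
    (h : ∀ i ∈ s, ∀ n : ℕ, (L i * u i) n = u i n * (Real.log n : ℂ)) (n : ℕ) :
    ((∑ i ∈ s, L i) * ∏ i ∈ s, u i) n = (∏ i ∈ s, u i) n * (Real.log n : ℂ) := by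
  classical
  induction s using Finset.induction_on generalizing n with
  | empty =>
    rcases Nat.eq_zero_or_pos n with hn | hn
    · simp [hn]
    · by_cases h1 : n = 1
      · simp [h1]
      · simp [ArithmeticFunction.one_apply_ne h1]
  | insert i s hi ih =>
    rw [Finset.sum_insert hi, Finset.prod_insert hi]
    have hL := h i (Finset.mem_insert_self i s)
    have hS : ∀ m : ℕ, ((∑ i ∈ s, L i) * ∏ i ∈ s, u i) m = (∏ i ∈ s, u i) m * (Real.log m : ℂ) :=
      fun m => ih (fun j hj => h j (Finset.mem_insert_of_mem hj)) m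
    set U := ∏ j ∈ s, u j with hU
    set S := ∑ j ∈ s, L j with hSd
    clear_value S U
    have hring : (L i + S) * (u i * U) = (L i * u i) * U + u i * (S * U) := by ring
    rw [hring, ArithmeticFunction.add_apply, ArithmeticFunction.mul_apply,
      ArithmeticFunction.mul_apply, ArithmeticFunction.mul_apply, Finset.sum_mul]
    have key : ∑ x ∈ n.divisorsAntidiagonal,
        ((L i * u i) x.1 * U x.2 + u i x.1 * (S * U) x.2) =
        ∑ x ∈ n.divisorsAntidiagonal, (L i * u i) x.1 * U x.2 +
        ∑ x ∈ n.divisorsAntidiagonal, u i x.1 * (S * U) x.2 := Finset.sum_add_distrib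
    rw [← key]
    refine Finset.sum_congr rfl fun x hx => ?_
    obtain ⟨hx1, hx2⟩ := Nat.mem_divisorsAntidiagonal.1 hx
    have hx10 : x.1 ≠ 0 := fun h0 => hx2 (by rw [← hx1, h0, zero_mul])
    have hx20 : x.2 ≠ 0 := fun h0 => hx2 (by rw [← hx1, h0, mul_zero])
    rw [hL x.1, hS x.2, ← hx1]
    push_cast
    rw [Real.log_mul (by exact_mod_cast hx10) (by exact_mod_cast hx20)]
    push_cast
    ring

end WTA
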